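import Pool.Agent.U162.SH.Duh2
import Pool.Agent.U810.SH.KER
import Pool.Agent.U15.SH.TON
import Pool.Agent.U608.SH.MIN
import Pool.Agent.U402.SH.BOOT

/-!
Small data rigidity at the endpoint `s = 2`
-/

open MeasureTheory Set Filter Topology
open scoped ENNReal NNReal ContDiff

namespace Pool.Agent.U162.SF

open Pool.Agent.H356R3.NS Pool.Agent.U162.TS Pool.Agent.U162.GE Pool.Agent.U162.TS.EL Pool.Agent.U162.TS.VF Pool.Agent.U162.TS.Ph Pool.Agent.U162.PL Pool.Agent.U162.MU Pool.Agent.U162.LX Pool.Agent.U162.SH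

variable {T ν : ℝ} {f u : ℝ → R3 → R3} {p : ℝ → R3 → ℝ}

lemma crit_eq (a : K → C3) : critNorm 2 a = (N2 fun k => ‖a k‖ₑ) ^ (1 / 2 : ℝ) := by
  unfold critNorm N2
  congr 1
  refine tsum_congr fun j => ?_
  rw [ENNReal.rpow_two]
  rfl

lemma half_sq (x : ℝ≥0∞) : (x ^ (1 / 2 : ℝ)) ^ 2 = x := by
  rw [← ENNReal.rpow_natCast, ← ENNReal.rpow_mul]
  norm_num

lemma N2_le_of_crit {a : K → C3} {e : ℝ} (he : 0 ≤ e) (h : critNorm 2 a ≤ ENNReal.ofReal e) : (N2 fun k => ‖a k‖ₑ) ≤ ENNReal.ofReal (e ^ 2) := by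
  rw [crit_eq] at h
  rw [← half_sq (N2 _), ENNReal.ofReal_pow he]
  gcongr

lemma crit_le_of_N2 {a : K → C3} {e : ℝ} (he : 0 ≤ e) (h : (N2 fun k => ‖a k‖ₑ) ≤ ENNReal.ofReal (e ^ 2)) : critNorm 2 a ≤ ENNReal.ofReal e := by
  rw [crit_eq]
  refine (ENNReal.rpow_le_rpow h (by norm_num)).trans (le_of_eq ?_)
  rw [ENNReal.ofReal_rpow_of_nonneg (by positivity) (by norm_num), ← Real.sqrt_eq_rpow, Real.sqrt_sq he]

lemma N2_four (b : K → ℝ≥0∞) : (N2 fun k => 4 * b k) ^ (1 / 2 : ℝ) = 4 * (N2 b) ^ (1 / 2 : ℝ) := by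
  have h : (N2 fun k => 4 * b k) = 16 * N2 b := by
    unfold N2
    rw [← ENNReal.tsum_mul_left]
    refine tsum_congr fun j => ?_
    have h1 : shl (fun k => 4 * b k) j = 4 * shl b j := by
      unfold shl
      rw [← ENNReal.tsum_mul_left]
      refine tsum_congr fun k => ?_
      split_ifs <;> simp
    rw [h1, mul_div_assoc, mul_pow]
    norm_num
  rw [h, ENNReal.mul_rpow_of_nonneg _ _ (by norm_num)]
  congr 1
  have : (16 : ℝ≥0∞) = 4 ^ (2 : ℝ) := by rw [ENNReal.rpow_two]; norm_num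
  rw [this, ← ENNReal.rpow_mul]
  norm_num

lemma sqn_eq (k : K) : ((sqn k : ℤ) : ℝ) = H356R3.NS.sq k := by
  unfold sqn H356R3.NS.sq
  push_cast
  rfl

/-- small data rigidity: the velocity is small in `FB^{-1}_{1,2}` as long as it exists -/
theorem rigid (hν : 0 < ν) (h : Sln ν T f u p) {e : ℝ} (he : 0 ≤ e) (hs : e ≤ ν / 300)
    (hi : critNorm 2 (H356R3.NS.fc (u 0)) ≤ ENNReal.ofReal e)
    (hf : ∫⁻ t in Ioo 0 T, critNorm 2 (H356R3.NS.fc (f t)) ≤ ENNReal.ofReal (e / 4)) {t : ℝ} (ht : t ∈ Ico 0 T) :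
    critNorm 2 (H356R3.NS.fc (u t)) ≤ ENNReal.ofReal (4 * e) := by
  rcases ht.1.eq_or_lt with h0 | h0
  · rw [← h0]
    exact hi.trans (ENNReal.ofReal_le_ofReal (by linarith))
  have ht' : t ∈ Ioo 0 T := ⟨h0, ht.2⟩
  obtain ⟨b, hb⟩ : ∃ b : ℝ, b = (t + T) / 2 := ⟨_, rfl⟩
  have htb : t < b := by rw [hb]; linarith [ht.2]
  have hbT : b < T := by rw [hb]; linarith [ht.2]
  have hb0 : 0 < b := h0.trans htb
  set cl : ℝ → ℝ := fun s => max 0 (min s b) with hcl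
  have ccl : Continuous cl := continuous_const.max (continuous_id.min continuous_const)
  have mcl : ∀ s, cl s ∈ Ico 0 T := fun s => ⟨le_max_left _ _, (max_lt (hb0.trans hbT) ((min_le_right _ _).trans_lt hbT))⟩
  have ecl : ∀ s ∈ Icc 0 b, cl s = s := fun s hs => by
    rw [hcl]; simp only; rw [min_eq_left hs.2, max_eq_right hs.1]
  obtain ⟨M, hM0, hM⟩ := Wm_bd h.hu hbT 0
  have mcl2 : ∀ s, cl s ∈ Icc 0 b := fun s => ⟨le_max_left _ _, max_le hb0.le (min_le_right _ _)⟩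
  have hx : ∀ k : K, Measurable fun s => ‖H356R3.NS.fc (u (cl s)) k‖ₑ := fun k =>
    ((fc_ct h.hu k).comp_continuous ccl mcl).enorm.measurable
  have hφ : ∀ k : K, Measurable fun s => 4 * ‖H356R3.NS.fc (f (cl s)) k‖ₑ := fun k =>
    ((fc_ct h.hf k).comp_continuous ccl mcl).enorm.measurable.const_mul 4
  have hπ : 39 < 4 * Real.pi ^ 2 := by
    have := Real.pi_gt_d2
    nlinarith
  have key := apriori Pool.Agent.U810.SH.KER.t_KER Pool.Agent.U162.SH.t_TON Pool.Agent.U608.SH.MIN.t_MIN Pool.Agent.U402.SH.t_BOOT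
    (c := 4 * Real.pi ^ 2 * ν) (C := 240) (T := b) (B := M) (e := e) (by positivity) (by norm_num) he (by nlinarith)
    (fun k s => ‖H356R3.NS.fc (u (cl s)) k‖ₑ) (fun k s => 4 * ‖H356R3.NS.fc (f (cl s)) k‖ₑ) hx hφ
    (fun s _ => (Wn_le_Wm 0 _).trans (hM _ (mcl2 s))) (fun s _ => by rw [(h.huf _ (mcl s)).dta.mean]; simp)
    (fun k hk s hs => by
      have hs' : s ∈ Ioo 0 T := ⟨hs.1, hs.2.trans hbT⟩
      have h1 := h.duh hs' hk
      rw [sqn_eq, ecl s ⟨hs.1.le, hs.2.le⟩, ecl 0 ⟨le_rfl, hb0.le⟩]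
      refine h1.trans (le_of_eq ?_)
      congr 1
      refine setLIntegral_congr_fun measurableSet_Ioo fun τ hτ => ?_
      rw [ecl τ ⟨hτ.1.le, (hτ.2.trans hs.2).le⟩]
      rfl)
    (by
      rw [ecl 0 ⟨le_rfl, hb0.le⟩]
      exact N2_le_of_crit he hi)
    (by
      have e1 : ∫⁻ τ in Ioo 0 b, (N2 fun k : K => 4 * ‖H356R3.NS.fc (f (cl τ)) k‖ₑ) ^ (1 / 2 : ℝ)
          = ∫⁻ τ in Ioo 0 b, 4 * critNorm 2 (H356R3.NS.fc (f τ)) := by
        refine setLIntegral_congr_fun measurableSet_Ioo fun τ hτ => ?_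
        rw [ecl τ ⟨hτ.1.le, hτ.2.le⟩, N2_four, ← crit_eq]
      rw [e1, lintegral_const_mul' _ _ (by norm_num)]
      refine (mul_le_mul' le_rfl ((lintegral_mono_set (show Ioo 0 b ⊆ Ioo 0 T from fun τ hτ => ⟨hτ.1, hτ.2.trans hbT⟩)).trans hf)).trans (le_of_eq ?_)
      rw [show (4 : ℝ≥0∞) = ENNReal.ofReal 4 by norm_num, ← ENNReal.ofReal_mul (by norm_num)]
      congr 1; ring)
    (t := t) ⟨h0, htb⟩
  rw [ecl t ⟨h0.le, htb.le⟩] at key
  exact crit_le_of_N2 (by positivity) key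

end Pool.Agent.U162.SF
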