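import Pool.Agent.U162.SH.Cost

/-!
A shear wave, and lower bounds of the critical norms
-/

open MeasureTheory Set Filter Topology
open scoped ENNReal NNReal ContDiff

namespace Pool.Agent.U162.SF

open Pool.Agent.H356R3.NS Pool.Agent.U162.TS Pool.Agent.U162.GE Pool.Agent.U162.TS.EL Pool.Agent.U162.TS.VF Pool.Agent.U162.TS.Ph Pool.Agent.U162.PL Pool.Agent.U162.MU Pool.Agent.U162.LX Pool.Agent.U162.SH

/-- the wave vector -/
def e2 : K := ![0, 1, 0]

lemma e2_ne : e2 ≠ 0 := by
  intro h
  have := congrFun h 1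
  simp [e2] at this

/-- the coefficients of the wave -/
def wv : K → C3 := fun k i => if (k = e2 ∨ k = -e2) ∧ i = 0 then 1 else 0

lemma wv_norm (k : K) : ‖wv k‖ ≤ 1 := by
  rw [pi_norm_le_iff_of_nonneg zero_le_one]
  intro i
  unfold wv
  split_ifs <;> simp

lemma wv_zero {k : K} (h : ¬(k = e2 ∨ k = -e2)) : wv k = 0 := by
  funext i
  unfold wv
  rw [if_neg fun hh => h hh.1]
  rfl

lemma nk_e2 : nk e2 = 1 ∧ nk (-e2) = 1 := by
  constructor <;>
  · unfold nk H356R3.NS.sq e2
    simp [Fin.sum_univ_three]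

lemma wv_dta : Dta wv where
  sum := by
    refine summable_of_ne_finset_zero (s := {e2, -e2}) fun k hk => ?_
    rw [wv_zero (by simpa using hk), norm_zero]
  mean := wv_zero (by
    rintro (h | h)
    · exact e2_ne h.symm
    · exact e2_ne (by rw [← neg_neg e2, ← h, neg_zero]))
  real := fun k i => by
    have h : (-k = e2 ∨ -k = -e2) ↔ (k = e2 ∨ k = -e2) := by
      rw [neg_inj, neg_eq_iff_eq_neg]
      exact or_comm
    simp only [wv, h]
    split_ifs <;> simp
  div := fun k => by
    rw [dt_eq]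
    by_cases h : k = e2 ∨ k = -e2
    · have h1 : wv k 1 = 0 := by unfold wv; rw [if_neg (by simp)]
      have h2 : wv k 2 = 0 := by unfold wv; rw [if_neg (by simp)]
      have h3 : k 0 = 0 := by rcases h with rfl | rfl <;> simp [e2]
      rw [h1, h2, h3]; simp
    · rw [wv_zero h]; simp
  dec := fun j => ⟨1, fun k => by
    by_cases h : k = e2 ∨ k = -e2
    · have h1 : nk k = 1 := by rcases h with rfl | rfl; exacts [nk_e2.1, nk_e2.2]
      rw [h1, one_pow, one_mul]
      exact wv_norm k
    · rw [wv_zero h, norm_zero, mul_zero]; exact zero_le_one⟩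

lemma wv_e2 : 1 ≤ ‖wv e2‖ₑ := by
  have h : ‖wv e2 0‖ ≤ ‖wv e2‖ := norm_le_pi_norm _ 0
  have h1 : wv e2 0 = 1 := by unfold wv; simp
  rw [h1, norm_one] at h
  rw [← ofReal_norm, ← ENNReal.ofReal_one]
  exact ENNReal.ofReal_le_ofReal h

/-- lower bound of the critical norm -/
lemma crit_ge {s : ℝ} (hs : 0 < s) (a : K → C3) : ‖a e2‖ₑ ≤ critNorm s a := by
  have h0 : ‖a e2‖ₑ ≤ shellSum a 0 := by
    unfold shellSum
    refine le_trans (le_of_eq ?_) (ENNReal.le_tsum e2)
    rw [if_pos]
    simp [e2, Fin.sum_univ_three]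
  unfold critNorm
  calc ‖a e2‖ₑ ≤ shellSum a 0 := h0
    _ = ((shellSum a 0) ^ s) ^ (1 / s) := by
        rw [← ENNReal.rpow_mul, mul_one_div_cancel hs.ne', ENNReal.rpow_one]
    _ ≤ _ := by
        refine ENNReal.rpow_le_rpow ?_ (by positivity)
        refine le_trans (le_of_eq ?_) (ENNReal.le_tsum 0)
        simp

/-- the velocity which becomes unbounded at `T` -/
noncomputable def vb (T : ℝ) (t : ℝ) : R3 → R3 := fun x => (t / (T - t)) • fld wv x

lemma vb_crit {T s : ℝ} (hs : 0 < s) {t : ℝ} (ht : t ∈ Ico 0 T) :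
    ENNReal.ofReal (t / (T - t)) ≤ critNorm s (H356R3.NS.fc (vb T t)) := by
  refine le_trans ?_ (crit_ge hs _)
  unfold vb
  rw [fc_smul, enorm_smul]
  have h1 : H356R3.NS.fc (fld wv) e2 = wv e2 := funext fun i => fld_fc wv_dta e2 i
  have h2 : 0 ≤ t / (T - t) := div_nonneg ht.1 (by linarith [ht.2])
  rw [h1, Real.enorm_eq_ofReal h2]
  calc ENNReal.ofReal (t / (T - t)) = ENNReal.ofReal (t / (T - t)) * 1 := (mul_one _).symm
    _ ≤ _ := by gcongr; exact wv_e2

lemma vb_field (T t : ℝ) : Field (vb T t) := by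
  have h := fld_field wv_dta
  have hd := h.dta
  have e : vb T t = fun x => (t / (T - t)) • fld wv x := rfl
  have hsp : SPF (vb T t) := SPF.smul (f := fld wv) h.sp _
  refine ⟨contDiff_pi.2 fun i => (hsp i).smooth, fun x j => ?_, fun x => ?_, fun i => ?_⟩
  · rw [e]; simp only; rw [h.periodic x j]
  · have h1 : ∀ i, pd i (fun y => vb T t y i) x = (t / (T - t)) * pd i (fun y => fld wv y i) x := by
      intro i
      have h2 : DifferentiableAt ℝ (fun y => fld wv y i) x := ((contDiff_pi.1 h.smooth i).differentiable (by simp)) x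
      show H356R3.NS.pd i (fun y => (t / (T - t)) * fld wv y i) x = _
      unfold H356R3.NS.pd
      rw [fderiv_const_mul h2]
      simp
    simp only [h1]
    rw [← Finset.mul_sum, h.divFree x, mul_zero]
  · have : ∀ x, vb T t x i = (t / (T - t)) * fld wv x i := fun x => by rw [e]; simp
    simp only [this]
    rw [integral_const_mul, h.mean i, mul_zero]

end Pool.Agent.U162.SF
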