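import Pool.Agent.U162.SH.Opt

/-!
The cost of steering is optimal up to a factor
-/

open MeasureTheory Set Filter Topology
open scoped ENNReal NNReal ContDiff

namespace Pool.Agent.U162.SF

open Pool.Agent.H356R3.NS Pool.Agent.U162.TS Pool.Agent.U162.GE Pool.Agent.U162.TS.EL Pool.Agent.U162.TS.VF Pool.Agent.U162.TS.Ph Pool.Agent.U162.PL Pool.Agent.U162.MU Pool.Agent.U162.LX Pool.Agent.U162.SH

variable {T ν : ℝ} {f u : ℝ → R3 → R3} {p : ℝ → R3 → ℝ}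

lemma ex_fin {a : K → ℝ≥0∞} (h : ∑' k, a k ≠ ⊤) {η : ℝ} (hη : 0 < η) : ∃ F : Finset K, ∑' k, a k ≤ ∑ k ∈ F, a k + ENNReal.ofReal η := by
  by_cases h0 : ∑' k, a k = 0
  · exact ⟨∅, by rw [h0]; exact bot_le⟩
  have h1 : ∑' k, a k - ENNReal.ofReal η < ∑' k, a k := ENNReal.sub_lt_self h h0 (by simpa using hη)
  conv_rhs at h1 => rw [ENNReal.tsum_eq_iSup_sum]
  obtain ⟨F, hF⟩ := lt_iSup_iff.1 h1
  exact ⟨F, tsub_le_iff_right.1 hF.le⟩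

lemma fc_close {a b : R3 → R3} (ha : SPF a) (hb : SPF b) {ε : ℝ} (hε : 0 ≤ ε) (h : ∀ x i, |a x i - b x i| ≤ ε) (k : K) :
    ‖H356R3.NS.fc a k - H356R3.NS.fc b k‖ₑ ≤ ENNReal.ofReal ε := by
  rw [← fc_sub ha hb, ← ofReal_norm]
  refine ENNReal.ofReal_le_ofReal ?_
  rw [pi_norm_le_iff_of_nonneg hε]
  intro i
  rw [← fr_eq_fc]
  exact fr_le_sup (fun x _ => h x i) k

/-- the cost is optimal up to a factor -/
theorem opt (hν : 0 < ν) {u₀ g : R3 → R3} (h0 : Field u₀) (hg : Field g) {v : ℝ → R3 → R3} {p : ℝ → R3 → ℝ}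
    (hv : AdmissiblePeriodic ν g v p) {η : ℝ} (hη : 0 < η) :
    ∃ (ε₀ : ℝ) (K0 : ℕ), 0 < ε₀ ∧ ∀ ε : ℝ, 0 < ε → ε ≤ ε₀ → ∀ {b : R3 → R3} {u : ℝ → R3 → R3} {q : ℝ → R3 → ℝ},
      Field b → (∀ k : Fq, ∑ i, k i ^ 2 ≤ (K0 : ℤ) → H356R3.NS.fc b k = H356R3.NS.fc u₀ k) →
      AdmissiblePeriodic ν b u q → (∀ x i, |u ε x i - v ε x i| ≤ ε) → ∀ {e : ℝ}, 0 ≤ e → e ≤ ν / 600 →
      critNorm 2 (fun k i => H356R3.NS.fc b k i - H356R3.NS.fc u₀ k i) ≤ ENNReal.ofReal e →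
      leiLin (fun k i => H356R3.NS.fc g k i - H356R3.NS.fc u₀ k i) ≤ ENNReal.ofReal (150 * e ^ 2 / ν + η) := by
  obtain ⟨T, hT0, hT⟩ := ll_near hν h0 (η := η / 4) (by positivity)
  have hh : Dta fun k => H356R3.NS.fc g k + (-1 : ℝ) • H356R3.NS.fc u₀ k := dta_add hg.dta (dta_smul h0.dta (-1))
  have hLe : leiLin (fun k => H356R3.NS.fc g k + (-1 : ℝ) • H356R3.NS.fc u₀ k) = leiLin fun k i => H356R3.NS.fc g k i - H356R3.NS.fc u₀ k i := by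
    congr 1
    funext k i
    simp
    ring
  have hfin : leiLin (fun k i => H356R3.NS.fc g k i - H356R3.NS.fc u₀ k i) ≠ ⊤ := by rw [← hLe]; exact leiLin_fin hh
  set D : K → C3 := fun k i => H356R3.NS.fc g k i - H356R3.NS.fc u₀ k i with hD
  have hfin' := hfin
  unfold leiLin at hfin'
  obtain ⟨F, hF⟩ := ex_fin hfin' (η := η / 4) (by positivity)
  obtain ⟨κ, hκ⟩ : ∃ κ : ℝ, κ = η / (12 * (F.card + 1)) := ⟨_, rfl⟩
  have hκ0 : 0 < κ := by rw [hκ]; positivity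
  -- small times
  have ev1 : ∀ k ∈ F, ∀ᶠ ε : ℝ in 𝓝[>] 0, ‖H356R3.NS.fc g k - H356R3.NS.fc (v ε) k‖ₑ ≤ ENNReal.ofReal κ := by
    intro k _
    have hS := adm_sln hv hg 1
    have h1 := fc_ct hS.hu k 0 ⟨le_rfl, one_pos⟩
    have h2 : Tendsto (fun t => H356R3.NS.fc (v t) k) (𝓝[>] 0) (𝓝 (H356R3.NS.fc (v 0) k)) :=
      h1.mono_left (nhdsWithin_le_iff.2 (mem_of_superset (Ioo_mem_nhdsGT one_pos) Ioo_subset_Ico_self))
    rw [hv.initial] at h2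
    have h3 : Tendsto (fun t => ‖H356R3.NS.fc g k - H356R3.NS.fc (v t) k‖) (𝓝[>] 0) (𝓝 0) := by
      have := (tendsto_const_nhds (x := H356R3.NS.fc g k)).sub h2
      rw [sub_self] at this
      simpa using this.norm
    filter_upwards [h3.eventually (ge_mem_nhds hκ0)] with ε hε
    rw [← ofReal_norm]
    exact ENNReal.ofReal_le_ofReal hε
  have ev2 : ∀ k ∈ F, ∀ᶠ ε : ℝ in 𝓝[>] 0, ‖Real.exp (-(4 * Real.pi ^ 2 * ν * H356R3.NS.sq k * ε)) • H356R3.NS.fc u₀ k - H356R3.NS.fc u₀ k‖ₑ ≤ ENNReal.ofReal κ := by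
    intro k _
    have h1 : Continuous fun ε : ℝ => ‖Real.exp (-(4 * Real.pi ^ 2 * ν * H356R3.NS.sq k * ε)) • H356R3.NS.fc u₀ k - H356R3.NS.fc u₀ k‖ := by fun_prop
    have h2 := (h1.tendsto 0).mono_left (nhdsWithin_le_nhds (s := Ioi 0))
    simp only [mul_zero, neg_zero, Real.exp_zero, one_smul, sub_self, norm_zero] at h2
    filter_upwards [h2.eventually (ge_mem_nhds hκ0)] with ε hε
    rw [← ofReal_norm]
    exact ENNReal.ofReal_le_ofReal hε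
  have ev3 : ∀ᶠ ε : ℝ in 𝓝[>] 0, ε < T := nhdsWithin_le_nhds (Iio_mem_nhds hT0)
  have ev4 : ∀ᶠ ε : ℝ in 𝓝[>] 0, ε ≤ κ := nhdsWithin_le_nhds (Iic_mem_nhds hκ0)
  have ev : ∀ᶠ ε : ℝ in 𝓝[>] 0, (∀ k ∈ F, ‖H356R3.NS.fc g k - H356R3.NS.fc (v ε) k‖ₑ ≤ ENNReal.ofReal κ) ∧
      (∀ k ∈ F, ‖Real.exp (-(4 * Real.pi ^ 2 * ν * H356R3.NS.sq k * ε)) • H356R3.NS.fc u₀ k - H356R3.NS.fc u₀ k‖ₑ ≤ ENNReal.ofReal κ) ∧
      ε < T ∧ ε ≤ κ :=
    ((Finset.eventually_all F).2 ev1).and (((Finset.eventually_all F).2 ev2).and (ev3.and ev4))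
  obtain ⟨ε₁, hε₁, hε₂⟩ := mem_nhdsGT_iff_exists_Ioo_subset.1 ev
  refine ⟨ε₁ / 2, (∑ k ∈ F, ∑ i, k i ^ 2).toNat, half_pos hε₁, fun ε hε0 hε {b u q} hb hbK h hcl {e} he hs hi => ?_⟩
  obtain ⟨c1, c2, c3, c4⟩ := hε₂ ⟨hε0, hε.trans_lt (half_lt_self hε₁)⟩
  have hFk : ∀ k ∈ F, H356R3.NS.fc b k = H356R3.NS.fc u₀ k := by
    intro k hk
    refine hbK k ?_
    have h1 : ∑ i, k i ^ 2 ≤ ∑ k ∈ F, ∑ i, k i ^ 2 :=
      Finset.single_le_sum (f := fun k : Fq => ∑ i, k i ^ 2) (fun _ _ => Finset.sum_nonneg fun _ _ => sq_nonneg _) hk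
    exact h1.trans (Int.self_le_toNat _)
  have hL := hT hb h he hs hi ε ⟨hε0, c3⟩
  set E : K → C3 := fun k => H356R3.NS.fc (u ε) k - Real.exp (-(4 * Real.pi ^ 2 * ν * H356R3.NS.sq k * ε)) • H356R3.NS.fc b k with hE
  have spu : SPF (u ε) := fun i => (adm_sm h (ε + 1) i).sp ε ⟨hε0.le, by linarith⟩
  have spv : SPF (v ε) := fun i => (adm_sm hv (ε + 1) i).sp ε ⟨hε0.le, by linarith⟩
  have hcu : ∀ k, ‖H356R3.NS.fc (v ε) k - H356R3.NS.fc (u ε) k‖ₑ ≤ ENNReal.ofReal κ := fun k => by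
    rw [← enorm_neg, neg_sub]
    exact (fc_close spu spv hε0.le hcl k).trans (ENNReal.ofReal_le_ofReal c4)
  have hterm : ∀ k ∈ F, (if k = 0 then 0 else ‖D k‖ₑ / ENNReal.ofReal (Real.sqrt (∑ i, (k i : ℝ) ^ 2)))
      ≤ 3 * ENNReal.ofReal κ + if k = 0 then 0 else ‖E k‖ₑ / ENNReal.ofReal (Real.sqrt (∑ i, (k i : ℝ) ^ 2)) := by
    intro k hk
    by_cases h2 : k = 0
    · rw [if_pos h2]; exact bot_le
    rw [if_neg h2, if_neg h2, nk_sqrt]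
    have hn := one_le_nk h2
    have e1 : D k = (H356R3.NS.fc g k - H356R3.NS.fc (v ε) k) + (H356R3.NS.fc (v ε) k - H356R3.NS.fc (u ε) k)
        + (Real.exp (-(4 * Real.pi ^ 2 * ν * H356R3.NS.sq k * ε)) • H356R3.NS.fc u₀ k - H356R3.NS.fc u₀ k) + E k := by
      have : D k = H356R3.NS.fc g k - H356R3.NS.fc u₀ k := rfl
      rw [this, hE]
      simp only
      rw [hFk k hk]
      abel
    have e2 : ‖D k‖ₑ ≤ 3 * ENNReal.ofReal κ + ‖E k‖ₑ := by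
      rw [e1]
      refine (enorm_add_le _ _).trans (add_le_add ?_ le_rfl)
      refine (enorm_add_le _ _).trans ?_
      refine (add_le_add ((enorm_add_le _ _).trans (add_le_add (c1 k hk) (hcu k))) (c2 k hk)).trans (le_of_eq ?_)
      ring
    refine (ENNReal.div_le_div_right e2 _).trans ?_
    rw [ENNReal.add_div]
    refine add_le_add ?_ le_rfl
    refine ENNReal.div_le_of_le_mul ?_
    calc 3 * ENNReal.ofReal κ = 3 * ENNReal.ofReal κ * 1 := (mul_one _).symm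
      _ ≤ _ := by
        gcongr
        rw [← ENNReal.ofReal_one]
        exact ENNReal.ofReal_le_ofReal hn
  have hLd : leiLin D = ∑' k : K, if k = 0 then 0 else ‖D k‖ₑ / ENNReal.ofReal (Real.sqrt (∑ i, (k i : ℝ) ^ 2)) := rfl
  have hLE : leiLin E = ∑' k : K, if k = 0 then 0 else ‖E k‖ₑ / ENNReal.ofReal (Real.sqrt (∑ i, (k i : ℝ) ^ 2)) := rfl
  rw [hLd]
  refine hF.trans ((add_le_add (Finset.sum_le_sum hterm) le_rfl).trans ?_)
  rw [Finset.sum_add_distrib, Finset.sum_const, nsmul_eq_mul]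
  have s1 : ∑ k ∈ F, (if k = 0 then 0 else ‖E k‖ₑ / ENNReal.ofReal (Real.sqrt (∑ i, (k i : ℝ) ^ 2))) ≤ ENNReal.ofReal (150 * e ^ 2 / ν + η / 4) := by
    refine le_trans ?_ hL
    rw [hLE]
    exact ENNReal.sum_le_tsum F
  refine (add_le_add (add_le_add le_rfl s1) le_rfl).trans ?_
  have s2 : (F.card : ℝ≥0∞) * (3 * ENNReal.ofReal κ) = ENNReal.ofReal (F.card * (3 * κ)) := by
    rw [ENNReal.ofReal_mul (by positivity), ENNReal.ofReal_mul (by norm_num), ENNReal.ofReal_natCast]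
    norm_num
  rw [s2, ← ENNReal.ofReal_add (by positivity) (by positivity), ← ENNReal.ofReal_add (by positivity) (by positivity)]
  refine ENNReal.ofReal_le_ofReal ?_
  have s3 : F.card * (3 * κ) ≤ η / 4 := by
    rw [hκ]
    have : (0 : ℝ) ≤ F.card := by positivity
    rw [← mul_div_assoc, ← mul_div_assoc, div_le_div_iff₀ (by positivity) (by norm_num)]
    nlinarith
  linarith

end Pool.Agent.U162.SF
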