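import Pool.Agent.U162.SH.Stm

/-!
A priori bound in `FB^{-1}_{1,2}` for small data and forces
-/

open MeasureTheory Set Filter Topology
open scoped ENNReal NNReal

namespace Pool.Agent.U162.SH

lemma sqn_nonneg (k : Kk) : 0 ≤ sqn k := Finset.sum_nonneg fun _ _ => sq_nonneg _

lemma shl_add (a b : Kk → ℝ≥0∞) (j : ℕ) : shl (fun k => a k + b k) j = shl a j + shl b j := by
  unfold shl
  rw [← ENNReal.tsum_add]
  refine tsum_congr fun k => ?_
  split_ifs <;> simp

lemma shl_mono {a b : Kk → ℝ≥0∞} (h : ∀ k, k ≠ 0 → a k ≤ b k) (j : ℕ) : shl a j ≤ shl b j := by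
  refine ENNReal.tsum_le_tsum fun k => ?_
  split_ifs with h1
  · refine h k ?_
    rintro rfl
    have : sqn 0 = 0 := by simp [sqn]
    rw [this] at h1
    have : (0 : ℤ) < 4 ^ j := by positivity
    omega
  · exact le_rfl

lemma N2_mono {a b : Kk → ℝ≥0∞} (h : ∀ k, k ≠ 0 → a k ≤ b k) : N2 a ≤ N2 b := by
  refine ENNReal.tsum_le_tsum fun j => ?_
  gcongr
  exact shl_mono h j

lemma sq_add_le (x y : ℝ≥0∞) : (x + y) ^ 2 ≤ 2 * x ^ 2 + 2 * y ^ 2 := by
  have h := ENNReal.rpow_add_le_mul_rpow_add_rpow x y (one_le_two (α := ℝ))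
  have e : (2 : ℝ≥0∞) ^ ((2 : ℝ) - 1) = 2 := by norm_num
  rw [e, ENNReal.rpow_two, ENNReal.rpow_two, ENNReal.rpow_two, mul_add] at h
  exact h

lemma N2_add (a b : Kk → ℝ≥0∞) : N2 (fun k => a k + b k) ≤ 2 * N2 a + 2 * N2 b := by
  unfold N2
  rw [← ENNReal.tsum_mul_left, ← ENNReal.tsum_mul_left, ← ENNReal.tsum_add]
  refine ENNReal.tsum_le_tsum fun j => ?_
  rw [shl_add, ENNReal.add_div]
  exact sq_add_le _ _

/-- at most one shell -/
lemma shl_sum (G : Kk → ℝ≥0∞) : ∑' j, shl G j ≤ ∑' k, G k := by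
  unfold shl
  rw [ENNReal.tsum_comm]
  refine ENNReal.tsum_le_tsum fun k => ?_
  by_cases h : ∃ j : ℕ, (4 : ℤ) ^ j ≤ sqn k ∧ sqn k < 4 ^ (j + 1)
  · obtain ⟨j, h1, h2⟩ := h
    rw [tsum_eq_single j]
    · rw [if_pos ⟨h1, h2⟩]
    · intro i hi
      rw [if_neg]
      rintro ⟨h3, h4⟩
      apply hi
      have a1 : (4 : ℤ) ^ i < 4 ^ (j + 1) := h3.trans_lt h2
      have a2 : (4 : ℤ) ^ j < 4 ^ (i + 1) := h1.trans_lt h4
      have b1 := (pow_lt_pow_iff_right₀ (by norm_num : (1 : ℤ) < 4)).1 a1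
      have b2 := (pow_lt_pow_iff_right₀ (by norm_num : (1 : ℤ) < 4)).1 a2
      omega
  · rw [ENNReal.tsum_eq_zero.2]
    · exact bot_le
    · intro j
      rw [if_neg fun h1 => h ⟨j, h1⟩]

lemma tsum_sq_le (a : ℕ → ℝ≥0∞) : ∑' j, a j ^ 2 ≤ (∑' j, a j) ^ 2 := by
  calc ∑' j, a j ^ 2 = ∑' j, a j * a j := by simp only [sq]
    _ ≤ ∑' j, a j * ∑' i, a i := ENNReal.tsum_le_tsum fun j => mul_le_mul' le_rfl (ENNReal.le_tsum j)
    _ = (∑' j, a j) ^ 2 := by rw [ENNReal.tsum_mul_right, sq]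

lemma N2_grad {C : ℝ} (hC : 0 ≤ C) (G : Kk → ℝ≥0∞) :
    N2 (fun k => ENNReal.ofReal (C * Real.sqrt (sqn k)) * G k) ≤ ENNReal.ofReal (4 * C ^ 2) * (∑' k, G k) ^ 2 := by
  have h1 : ∀ j, shl (fun k => ENNReal.ofReal (C * Real.sqrt (sqn k)) * G k) j / 2 ^ j ≤ ENNReal.ofReal (2 * C) * shl G j := by
    intro j
    have h2 : shl (fun k => ENNReal.ofReal (C * Real.sqrt (sqn k)) * G k) j ≤ ENNReal.ofReal (2 * C) * shl G j * 2 ^ j := by
      unfold shl
      rw [← ENNReal.tsum_mul_left, ← ENNReal.tsum_mul_right]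
      refine ENNReal.tsum_le_tsum fun k => ?_
      split_ifs with h
      · have h3 : Real.sqrt (sqn k) ≤ 2 ^ (j + 1) := by
          rw [Real.sqrt_le_left (by positivity)]
          have : (sqn k : ℝ) ≤ 4 ^ (j + 1) := by exact_mod_cast h.2.le
          calc (sqn k : ℝ) ≤ 4 ^ (j + 1) := this
            _ = (2 ^ (j + 1)) ^ 2 := by rw [← pow_mul, mul_comm, pow_mul]; norm_num
        have h4 : ENNReal.ofReal (C * Real.sqrt (sqn k)) ≤ ENNReal.ofReal (2 * C) * 2 ^ j := by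
          have e : (2 : ℝ≥0∞) ^ j = ENNReal.ofReal (2 ^ j) := by
            rw [ENNReal.ofReal_pow (by norm_num)]; norm_num
          rw [e, ← ENNReal.ofReal_mul (by positivity)]
          refine ENNReal.ofReal_le_ofReal ?_
          calc C * Real.sqrt (sqn k) ≤ C * 2 ^ (j + 1) := mul_le_mul_of_nonneg_left h3 hC
            _ = 2 * C * 2 ^ j := by rw [pow_succ]; ring
        calc ENNReal.ofReal (C * Real.sqrt (sqn k)) * G k ≤ ENNReal.ofReal (2 * C) * 2 ^ j * G k := mul_le_mul' h4 le_rfl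
          _ = ENNReal.ofReal (2 * C) * G k * 2 ^ j := by ring
      · simp
    refine ENNReal.div_le_of_le_mul h2
  calc N2 (fun k => ENNReal.ofReal (C * Real.sqrt (sqn k)) * G k) ≤ ∑' j, (ENNReal.ofReal (2 * C) * shl G j) ^ 2 := by
        refine ENNReal.tsum_le_tsum fun j => ?_
        gcongr
        exact h1 j
    _ ≤ (∑' j, ENNReal.ofReal (2 * C) * shl G j) ^ 2 := tsum_sq_le _
    _ ≤ (ENNReal.ofReal (2 * C) * ∑' k, G k) ^ 2 := by
        rw [ENNReal.tsum_mul_left]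
        gcongr
        exact shl_sum G
    _ = ENNReal.ofReal (4 * C ^ 2) * (∑' k, G k) ^ 2 := by
        rw [mul_pow, ← ENNReal.ofReal_pow (by positivity)]
        congr 2
        ring

lemma conv_sum (x : Kk → ℝ≥0∞) : ∑' k, ∑' l, x l * x (k - l) = (∑' k, x k) ^ 2 := by
  rw [ENNReal.tsum_comm]
  have : ∀ l : Kk, ∑' k, x l * x (k - l) = x l * ∑' k, x k := fun l => by
    rw [ENNReal.tsum_mul_left]
    congr 1
    exact (Equiv.subRight l).tsum_eq x
  simp only [this]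
  rw [ENNReal.tsum_mul_right, sq]

lemma prod_sum (x : Kk → ℝ≥0∞) : (∑' k, x k) ^ 2 = ∑' k, ∑' l, x k * x l := by
  simp only [ENNReal.tsum_mul_left]
  rw [ENNReal.tsum_mul_right, sq]

/-- the a priori bound -/
theorem apriori (hKER : S_KER) (hTON : S_TON) (hMIN : S_MIN) (hBOOT : S_BOOT)
    {c C T B e : ℝ} (hc : 0 < c) (hC : 0 ≤ C) (he : 0 ≤ e) (hce : 48 * C * e < c) (x φ : Kk → ℝ → ℝ≥0∞)
    (hx : ∀ k, Measurable (x k)) (hφ : ∀ k, Measurable (φ k)) (hB : ∀ t ∈ Icc 0 T, ∑' k, x k t ≤ ENNReal.ofReal B) (h0 : ∀ t ∈ Ioo 0 T, x 0 t = 0)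
    (hd : ∀ k, k ≠ 0 → ∀ s ∈ Ioo 0 T, x k s ≤ ENNReal.ofReal (Real.exp (-(c * sqn k * s))) * x k 0 +
      ∫⁻ τ in Ioo 0 s, ENNReal.ofReal (Real.exp (-(c * sqn k * (s - τ)))) *
        (φ k τ + ENNReal.ofReal (C * Real.sqrt (sqn k)) * ∑' l, x l τ * x (k - l) τ))
    (hi : N2 (fun k => x k 0) ≤ ENNReal.ofReal (e ^ 2)) (hf : ∫⁻ τ in Ioo 0 T, (N2 fun k => φ k τ) ^ (1 / 2 : ℝ) ≤ ENNReal.ofReal e)
    {t : ℝ} (ht : t ∈ Ioo 0 T) : N2 (fun k => x k t) ≤ ENNReal.ofReal ((4 * e) ^ 2) := by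
  have hT : 0 < T := ht.1.trans ht.2
  set h : Kk → ℝ → ℝ≥0∞ := fun k τ => ∑' l, x l τ * x (k - l) τ with hh
  have mh : ∀ k, Measurable (h k) := fun k => Measurable.ennreal_tsum fun l => (hx l).mul (hx (k - l))
  set L : Kk → ℝ≥0∞ := fun k => x k 0 + ∫⁻ τ in Ioo 0 T, φ k τ with hL
  set G : ℝ → Kk → ℝ≥0∞ := fun t k => ∫⁻ τ in Ioo 0 t, h k τ with hG
  set S : ℝ → Kk → ℝ≥0∞ := fun t k => if k = 0 then 0 else L k + ENNReal.ofReal (C * Real.sqrt (sqn k)) * G t k with hS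
  set A : ℝ → ℝ≥0∞ := fun t => ∫⁻ τ in Ioo 0 t, (∑' k, x k τ) ^ 2 with hA
  have hGA : ∀ t, ∑' k, G t k = A t := by
    intro t
    rw [hG, hA]
    simp only
    rw [← lintegral_tsum fun k => (mh k).aemeasurable]
    refine lintegral_congr fun τ => ?_
    exact conv_sum fun k => x k τ
  have hLN : N2 L ≤ ENNReal.ofReal (4 * e ^ 2) := by
    refine (N2_add _ _).trans ?_
    have h2 : N2 (fun k => ∫⁻ τ in Ioo 0 T, φ k τ) ≤ ENNReal.ofReal (e ^ 2) := by
      refine (hMIN T φ hφ).trans ?_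
      rw [ENNReal.ofReal_pow he]
      gcongr
    refine (add_le_add (mul_le_mul' le_rfl hi) (mul_le_mul' le_rfl h2)).trans (le_of_eq ?_)
    rw [show (2 : ℝ≥0∞) = ENNReal.ofReal 2 by norm_num, ← ENNReal.ofReal_mul (by norm_num), ← ENNReal.ofReal_add (by positivity) (by positivity)]
    congr 1; ring
  have hSN : ∀ t, N2 (S t) ≤ ENNReal.ofReal (8 * e ^ 2) + ENNReal.ofReal (8 * C ^ 2) * A t ^ 2 := by
    intro t
    have h1 : N2 (S t) ≤ N2 (fun k => L k + ENNReal.ofReal (C * Real.sqrt (sqn k)) * G t k) :=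
      N2_mono fun k hk => by rw [hS]; simp only [if_neg hk]; exact le_rfl
    refine h1.trans ((N2_add _ _).trans ?_)
    refine (add_le_add (mul_le_mul' le_rfl hLN) (mul_le_mul' le_rfl (N2_grad hC (G t)))).trans (le_of_eq ?_)
    have e2 : (2 : ℝ≥0∞) * ENNReal.ofReal (4 * e ^ 2) = ENNReal.ofReal (8 * e ^ 2) := by
      rw [show (2 : ℝ≥0∞) = ENNReal.ofReal 2 by norm_num, ← ENNReal.ofReal_mul (by norm_num)]
      congr 1; ring
    have e3 : (2 : ℝ≥0∞) * ENNReal.ofReal (4 * C ^ 2) = ENNReal.ofReal (8 * C ^ 2) := by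
      rw [show (2 : ℝ≥0∞) = ENNReal.ofReal 2 by norm_num, ← ENNReal.ofReal_mul (by norm_num)]
      congr 1; ring
    rw [hGA, e2, ← mul_assoc, e3]
  have hAS : ∀ t ∈ Icc 0 T, A t ≤ ENNReal.ofReal (3 / c) * N2 (S t) := by
    intro t ht
    have e1 : A t = ∑' k, ∑' l, ∫⁻ τ in Ioo 0 t, x k τ * x l τ := by
      rw [hA]
      simp only [prod_sum]
      have mm : ∀ k l, Measurable fun τ => x k τ * x l τ := fun k l => (hx k).mul (hx l)
      rw [lintegral_tsum (f := fun k τ => ∑' l, x k τ * x l τ) fun k => (Measurable.ennreal_tsum (mm k)).aemeasurable]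
      refine tsum_congr fun k => ?_
      rw [lintegral_tsum (f := fun l τ => x k τ * x l τ) fun l => (mm k l).aemeasurable]
    rw [e1]
    refine le_trans ?_ (hKER c hc (S t) (by rw [hS]; simp))
    refine ENNReal.tsum_le_tsum fun k => ENNReal.tsum_le_tsum fun l => ?_
    have hz : ∀ (k l : Kk), (k = 0 ∨ l = 0) → ∫⁻ τ in Ioo 0 t, x k τ * x l τ = 0 := by
      intro k l hkl
      rw [setLIntegral_congr_fun (g := fun _ => 0) measurableSet_Ioo fun τ hτ => ?_]
      · simp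
      · have hτ' : τ ∈ Ioo 0 T := ⟨hτ.1, hτ.2.trans_le ht.2⟩
        rcases hkl with rfl | rfl
        · simp only [h0 τ hτ', zero_mul]
        · simp only [h0 τ hτ', mul_zero]
    by_cases hk : k = 0
    · rw [hz k l (Or.inl hk)]; exact bot_le
    by_cases hl : l = 0
    · rw [hz k l (Or.inr hl)]; exact bot_le
    have pos : ∀ k : Kk, k ≠ 0 → 0 < c * sqn k := by
      intro k hk
      refine mul_pos hc ?_
      have : 0 < sqn k := by
        obtain ⟨i, hi⟩ := Function.ne_iff.1 hk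
        have hi' : k i ≠ 0 := hi
        exact Finset.sum_pos' (fun i _ => sq_nonneg _) ⟨i, Finset.mem_univ i, by positivity⟩
      exact_mod_cast this
    have key := hTON (c * sqn k) (c * sqn l) t (pos k hk) (pos l hl) (x k) (x l)
      (fun τ => φ k τ + ENNReal.ofReal (C * Real.sqrt (sqn k)) * h k τ) (fun τ => φ l τ + ENNReal.ofReal (C * Real.sqrt (sqn l)) * h l τ)
      (x k 0) (x l 0) ((hφ k).add ((mh k).const_mul _)) ((hφ l).add ((mh l).const_mul _))
      (fun s hs => hd k hk s ⟨hs.1, hs.2.trans_le ht.2⟩) (fun s hs => hd l hl s ⟨hs.1, hs.2.trans_le ht.2⟩)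
    refine key.trans ?_
    have hSk : ∀ k : Kk, k ≠ 0 → x k 0 + ∫⁻ τ in Ioo 0 t, (φ k τ + ENNReal.ofReal (C * Real.sqrt (sqn k)) * h k τ) ≤ S t k := by
      intro k hk
      rw [hS]
      simp only [if_neg hk]
      rw [lintegral_add_left (hφ k), lintegral_const_mul _ (mh k), ← add_assoc]
      refine add_le_add (add_le_add le_rfl ?_) le_rfl
      exact lintegral_mono_set fun τ hτ => ⟨hτ.1, hτ.2.trans_le ht.2⟩
    rw [← mul_add c]
    exact mul_le_mul' (mul_le_mul' (hSk k hk) (hSk l hl)) le_rfl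
  have hAb : ∀ t ∈ Icc 0 T, A t ≤ ENNReal.ofReal (B ^ 2 * T) := by
    intro t ht
    rw [hA]
    refine le_trans (setLIntegral_mono' measurableSet_Ioo (g := fun _ => ENNReal.ofReal (B ^ 2)) fun τ hτ => ?_) ?_
    · have h1 := hB τ ⟨hτ.1.le, hτ.2.le.trans ht.2⟩
      calc (∑' k, x k τ) ^ 2 ≤ ENNReal.ofReal B ^ 2 := by gcongr
        _ ≤ ENNReal.ofReal (B ^ 2) := by
          rcases le_or_gt 0 B with h | h
          · rw [ENNReal.ofReal_pow h]
          · rw [ENNReal.ofReal_of_nonpos h.le]; simp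
    · rw [setLIntegral_const, Real.volume_Ioo, ← ENNReal.ofReal_mul (by positivity)]
      refine ENNReal.ofReal_le_ofReal ?_
      have : t - 0 ≤ T := by linarith [ht.2]
      exact mul_le_mul_of_nonneg_left this (by positivity)
  have hAf : ∀ t ∈ Icc 0 T, A t ≠ ∞ := fun t ht => ne_top_of_le_ne_top ENNReal.ofReal_ne_top (hAb t ht)
  have hAi : ∀ t ∈ Icc 0 T, (A t).toReal ≤ 24 * e ^ 2 / c + 24 * C ^ 2 / c * (A t).toReal ^ 2 := by
    intro t ht
    have h1 := (hAS t ht).trans (mul_le_mul' le_rfl (hSN t))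
    rw [← ENNReal.ofReal_toReal (hAf t ht), ← ENNReal.ofReal_pow ENNReal.toReal_nonneg, ← ENNReal.ofReal_mul (by positivity),
      ← ENNReal.ofReal_add (by positivity) (by positivity), ← ENNReal.ofReal_mul (by positivity),
      ENNReal.ofReal_le_ofReal_iff (by positivity)] at h1
    refine h1.trans (le_of_eq ?_)
    field_simp
    ring
  have hA0 : (A 0).toReal = 0 := by rw [hA]; simp
  have hAc : ContinuousOn (fun t => (A t).toReal) (Icc 0 T) := by
    have key : ∀ s ∈ Icc 0 T, ∀ t ∈ Icc 0 T, s ≤ t → (A t).toReal ≤ (A s).toReal + B ^ 2 * (t - s) ∧ (A s).toReal ≤ (A t).toReal := by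
      intro s hs t ht hst
      constructor
      · have h1 : A t ≤ A s + ENNReal.ofReal (B ^ 2 * (t - s)) := by
          rw [hA]
          have hsub : Ioo 0 t ⊆ Ioo 0 s ∪ Icc s t := fun τ hτ => by
            rcases lt_or_ge τ s with h | h
            · exact Or.inl ⟨hτ.1, h⟩
            · exact Or.inr ⟨h, hτ.2.le⟩
          refine (lintegral_mono_set hsub).trans ((lintegral_union_le _ _ _).trans (add_le_add le_rfl ?_))
          refine le_trans (setLIntegral_mono' measurableSet_Icc (g := fun _ => ENNReal.ofReal (B ^ 2)) fun τ hτ => ?_) ?_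
          · have h1 := hB τ ⟨hs.1.trans hτ.1, hτ.2.trans ht.2⟩
            calc (∑' k, x k τ) ^ 2 ≤ ENNReal.ofReal B ^ 2 := by gcongr
              _ ≤ ENNReal.ofReal (B ^ 2) := by
                rcases le_or_gt 0 B with h | h
                · rw [ENNReal.ofReal_pow h]
                · rw [ENNReal.ofReal_of_nonpos h.le]; simp
          · rw [setLIntegral_const, Real.volume_Icc, ← ENNReal.ofReal_mul (by positivity)]
        have h2 := ENNReal.toReal_mono (by finiteness [hAf s hs]) h1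
        rwa [ENNReal.toReal_add (hAf s hs) ENNReal.ofReal_ne_top, ENNReal.toReal_ofReal (mul_nonneg (by positivity) (by linarith))] at h2
      · refine ENNReal.toReal_mono (hAf t ht) ?_
        exact lintegral_mono_set fun τ hτ => ⟨hτ.1, hτ.2.trans_le hst⟩
    have hlip : LipschitzOnWith (B ^ 2).toNNReal (fun t => (A t).toReal) (Icc 0 T) := by
      refine LipschitzOnWith.of_dist_le_mul fun s hs t ht => ?_
      rw [Real.coe_toNNReal _ (by positivity), Real.dist_eq, Real.dist_eq]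
      rcases le_total s t with h | h
      · obtain ⟨a1, a2⟩ := key s hs t ht h
        rw [abs_of_nonpos (by linarith), abs_of_nonpos (by linarith)]
        linarith
      · obtain ⟨a1, a2⟩ := key t ht s hs h
        rw [abs_of_nonneg (by linarith), abs_of_nonneg (by linarith)]
        linarith
    exact hlip.continuousOn
  have hsm : 4 * (24 * e ^ 2 / c) * (24 * C ^ 2 / c) < 1 := by
    have e1 : 4 * (24 * e ^ 2 / c) * (24 * C ^ 2 / c) = (48 * C * e) ^ 2 / c ^ 2 := by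
      field_simp
      ring
    rw [e1, div_lt_one (by positivity)]
    exact pow_lt_pow_left₀ hce (by positivity) (by norm_num)
  have hA2 := hBOOT T (24 * e ^ 2 / c) (24 * C ^ 2 / c) (fun t => (A t).toReal) hAc hA0 (by positivity) (by positivity) hsm hAi
  have ht' : t ∈ Icc 0 T := ⟨ht.1.le, ht.2.le⟩
  have hA3 : A t ≤ ENNReal.ofReal (48 * e ^ 2 / c) := by
    rw [← ENNReal.ofReal_toReal (hAf t ht')]
    refine ENNReal.ofReal_le_ofReal ((hA2 t ht').trans (le_of_eq ?_))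
    ring
  have hxS : N2 (fun k => x k t) ≤ N2 (S t) := by
    refine N2_mono fun k hk => ?_
    rw [hS]
    simp only [if_neg hk]
    refine (hd k hk t ht).trans ?_
    rw [hL]
    simp only
    have hck : 0 ≤ c * sqn k := mul_nonneg hc.le (by exact_mod_cast sqn_nonneg k)
    have hexp : ∀ s : ℝ, 0 ≤ s → ENNReal.ofReal (Real.exp (-(c * sqn k * s))) ≤ 1 := fun s hs => by
      rw [← ENNReal.ofReal_one]
      refine ENNReal.ofReal_le_ofReal ?_
      rw [Real.exp_le_one_iff]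
      have := mul_nonneg hck hs
      linarith
    have h1 : ∫⁻ τ in Ioo 0 t, ENNReal.ofReal (Real.exp (-(c * sqn k * (t - τ)))) *
        (φ k τ + ENNReal.ofReal (C * Real.sqrt (sqn k)) * ∑' l, x l τ * x (k - l) τ)
        ≤ (∫⁻ τ in Ioo 0 T, φ k τ) + ENNReal.ofReal (C * Real.sqrt (sqn k)) * G t k := by
      refine le_trans (setLIntegral_mono' measurableSet_Ioo (g := fun τ => φ k τ + ENNReal.ofReal (C * Real.sqrt (sqn k)) * h k τ) fun τ hτ => ?_) ?_
      · exact mul_le_of_le_one_left (by positivity) (hexp _ (by linarith [hτ.2]))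
      · rw [lintegral_add_left (hφ k), lintegral_const_mul _ (mh k)]
        refine add_le_add ?_ le_rfl
        exact lintegral_mono_set fun τ hτ => ⟨hτ.1, hτ.2.trans ht.2⟩
    rw [add_assoc]
    refine add_le_add (mul_le_of_le_one_left (by positivity) (hexp t ht.1.le)) h1
  refine hxS.trans ((hSN t).trans ?_)
  have h2 : ENNReal.ofReal (8 * C ^ 2) * A t ^ 2 ≤ ENNReal.ofReal (8 * e ^ 2) := by
    calc ENNReal.ofReal (8 * C ^ 2) * A t ^ 2 ≤ ENNReal.ofReal (8 * C ^ 2) * ENNReal.ofReal (48 * e ^ 2 / c) ^ 2 := by gcongr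
      _ = ENNReal.ofReal (8 * C ^ 2 * (48 * e ^ 2 / c) ^ 2) := by
        rw [← ENNReal.ofReal_pow (by positivity), ← ENNReal.ofReal_mul (by positivity)]
      _ ≤ ENNReal.ofReal (8 * e ^ 2) := by
        refine ENNReal.ofReal_le_ofReal ?_
        have e1 : 8 * C ^ 2 * (48 * e ^ 2 / c) ^ 2 = 8 * e ^ 2 * ((48 * C * e) ^ 2 / c ^ 2) := by
          field_simp
        rw [e1]
        refine mul_le_of_le_one_right (by positivity) ?_
        rw [div_le_one (by positivity)]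
        exact pow_le_pow_left₀ (by positivity) hce.le 2
  refine (add_le_add le_rfl h2).trans (le_of_eq ?_)
  rw [← ENNReal.ofReal_add (by positivity) (by positivity)]
  congr 1; ring

end Pool.Agent.U162.SH
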