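import Pool.Agent.U162.SH.AB

/-!
The a priori bound of the integral of the square of the Wiener norm
-/

open MeasureTheory Set Filter Topology
open scoped ENNReal NNReal

namespace Pool.Agent.U162.SH

/-- the a priori bound of the integral -/
theorem apriori2 (hKER : S_KER) (hTON : S_TON) (hMIN : S_MIN) (hBOOT : S_BOOT)
    {c C T B e : ℝ} (hc : 0 < c) (hC : 0 ≤ C) (he : 0 ≤ e) (hce : 48 * C * e < c) (x φ : Kk → ℝ → ℝ≥0∞)
    (hx : ∀ k, Measurable (x k)) (hφ : ∀ k, Measurable (φ k)) (hB : ∀ t ∈ Icc 0 T, ∑' k, x k t ≤ ENNReal.ofReal B) (h0 : ∀ t ∈ Ioo 0 T, x 0 t = 0)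
    (hd : ∀ k, k ≠ 0 → ∀ s ∈ Ioo 0 T, x k s ≤ ENNReal.ofReal (Real.exp (-(c * sqn k * s))) * x k 0 +
      ∫⁻ τ in Ioo 0 s, ENNReal.ofReal (Real.exp (-(c * sqn k * (s - τ)))) *
        (φ k τ + ENNReal.ofReal (C * Real.sqrt (sqn k)) * ∑' l, x l τ * x (k - l) τ))
    (hi : N2 (fun k => x k 0) ≤ ENNReal.ofReal (e ^ 2)) (hf : ∫⁻ τ in Ioo 0 T, (N2 fun k => φ k τ) ^ (1 / 2 : ℝ) ≤ ENNReal.ofReal e)
    {t : ℝ} (ht : t ∈ Ioo 0 T) : ∫⁻ τ in Ioo 0 t, (∑' k, x k τ) ^ 2 ≤ ENNReal.ofReal (48 * e ^ 2 / c) := by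
  have hT : 0 < T := ht.1.trans ht.2
  set h : Kk → ℝ → ℝ≥0∞ := fun k τ => ∑' l, x l τ * x (k - l) τ with hh
  have mh : ∀ k, Measurable (h k) := fun k => Measurable.ennreal_tsum fun l => (hx l).mul (hx (k - l))
  set L : Kk → ℝ≥0∞ := fun k => x k 0 + ∫⁻ τ in Ioo 0 T, φ k τ with hL
  set G : ℝ → Kk → ℝ≥0∞ := fun t k => ∫⁻ τ in Ioo 0 t, h k τ with hG
  set S : ℝ → Kk → ℝ≥0∞ := fun t k => if k = 0 then 0 else L k + ENNReal.ofReal (C * Real.sqrt (sqn k)) * G t k with hS
  set A : ℝ → ℝ≥0∞ := fun t => ∫⁻ τ in Ioo 0 t, (∑' k, x k τ) ^ 2 with hA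
  have hGA : ∀ t, ∑' k, G t k = A t := by
    intro t
    rw [hG, hA]
    simp only
    rw [← lintegral_tsum fun k => (mh k).aemeasurable]
    refine lintegral_congr fun τ => ?_
    exact conv_sum fun k => x k τ
  have hLN : N2 L ≤ ENNReal.ofReal (4 * e ^ 2) := by
    refine (N2_add _ _).trans ?_
    have h2 : N2 (fun k => ∫⁻ τ in Ioo 0 T, φ k τ) ≤ ENNReal.ofReal (e ^ 2) := by
      refine (hMIN T φ hφ).trans ?_
      rw [ENNReal.ofReal_pow he]
      gcongr
    refine (add_le_add (mul_le_mul' le_rfl hi) (mul_le_mul' le_rfl h2)).trans (le_of_eq ?_)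
    rw [show (2 : ℝ≥0∞) = ENNReal.ofReal 2 by norm_num, ← ENNReal.ofReal_mul (by norm_num), ← ENNReal.ofReal_add (by positivity) (by positivity)]
    congr 1; ring
  have hSN : ∀ t, N2 (S t) ≤ ENNReal.ofReal (8 * e ^ 2) + ENNReal.ofReal (8 * C ^ 2) * A t ^ 2 := by
    intro t
    have h1 : N2 (S t) ≤ N2 (fun k => L k + ENNReal.ofReal (C * Real.sqrt (sqn k)) * G t k) :=
      N2_mono fun k hk => by rw [hS]; simp only [if_neg hk]; exact le_rfl
    refine h1.trans ((N2_add _ _).trans ?_)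
    refine (add_le_add (mul_le_mul' le_rfl hLN) (mul_le_mul' le_rfl (N2_grad hC (G t)))).trans (le_of_eq ?_)
    have e2 : (2 : ℝ≥0∞) * ENNReal.ofReal (4 * e ^ 2) = ENNReal.ofReal (8 * e ^ 2) := by
      rw [show (2 : ℝ≥0∞) = ENNReal.ofReal 2 by norm_num, ← ENNReal.ofReal_mul (by norm_num)]
      congr 1; ring
    have e3 : (2 : ℝ≥0∞) * ENNReal.ofReal (4 * C ^ 2) = ENNReal.ofReal (8 * C ^ 2) := by
      rw [show (2 : ℝ≥0∞) = ENNReal.ofReal 2 by norm_num, ← ENNReal.ofReal_mul (by norm_num)]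
      congr 1; ring
    rw [hGA, e2, ← mul_assoc, e3]
  have hAS : ∀ t ∈ Icc 0 T, A t ≤ ENNReal.ofReal (3 / c) * N2 (S t) := by
    intro t ht
    have e1 : A t = ∑' k, ∑' l, ∫⁻ τ in Ioo 0 t, x k τ * x l τ := by
      rw [hA]
      simp only [prod_sum]
      have mm : ∀ k l, Measurable fun τ => x k τ * x l τ := fun k l => (hx k).mul (hx l)
      rw [lintegral_tsum (f := fun k τ => ∑' l, x k τ * x l τ) fun k => (Measurable.ennreal_tsum (mm k)).aemeasurable]
      refine tsum_congr fun k => ?_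
      rw [lintegral_tsum (f := fun l τ => x k τ * x l τ) fun l => (mm k l).aemeasurable]
    rw [e1]
    refine le_trans ?_ (hKER c hc (S t) (by rw [hS]; simp))
    refine ENNReal.tsum_le_tsum fun k => ENNReal.tsum_le_tsum fun l => ?_
    have hz : ∀ (k l : Kk), (k = 0 ∨ l = 0) → ∫⁻ τ in Ioo 0 t, x k τ * x l τ = 0 := by
      intro k l hkl
      rw [setLIntegral_congr_fun (g := fun _ => 0) measurableSet_Ioo fun τ hτ => ?_]
      · simp
      · have hτ' : τ ∈ Ioo 0 T := ⟨hτ.1, hτ.2.trans_le ht.2⟩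
        rcases hkl with rfl | rfl
        · simp only [h0 τ hτ', zero_mul]
        · simp only [h0 τ hτ', mul_zero]
    by_cases hk : k = 0
    · rw [hz k l (Or.inl hk)]; exact bot_le
    by_cases hl : l = 0
    · rw [hz k l (Or.inr hl)]; exact bot_le
    have pos : ∀ k : Kk, k ≠ 0 → 0 < c * sqn k := by
      intro k hk
      refine mul_pos hc ?_
      have : 0 < sqn k := by
        obtain ⟨i, hi⟩ := Function.ne_iff.1 hk
        have hi' : k i ≠ 0 := hi
        exact Finset.sum_pos' (fun i _ => sq_nonneg _) ⟨i, Finset.mem_univ i, by positivity⟩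
      exact_mod_cast this
    have key := hTON (c * sqn k) (c * sqn l) t (pos k hk) (pos l hl) (x k) (x l)
      (fun τ => φ k τ + ENNReal.ofReal (C * Real.sqrt (sqn k)) * h k τ) (fun τ => φ l τ + ENNReal.ofReal (C * Real.sqrt (sqn l)) * h l τ)
      (x k 0) (x l 0) ((hφ k).add ((mh k).const_mul _)) ((hφ l).add ((mh l).const_mul _))
      (fun s hs => hd k hk s ⟨hs.1, hs.2.trans_le ht.2⟩) (fun s hs => hd l hl s ⟨hs.1, hs.2.trans_le ht.2⟩)
    refine key.trans ?_
    have hSk : ∀ k : Kk, k ≠ 0 → x k 0 + ∫⁻ τ in Ioo 0 t, (φ k τ + ENNReal.ofReal (C * Real.sqrt (sqn k)) * h k τ) ≤ S t k := by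
      intro k hk
      rw [hS]
      simp only [if_neg hk]
      rw [lintegral_add_left (hφ k), lintegral_const_mul _ (mh k), ← add_assoc]
      refine add_le_add (add_le_add le_rfl ?_) le_rfl
      exact lintegral_mono_set fun τ hτ => ⟨hτ.1, hτ.2.trans_le ht.2⟩
    rw [← mul_add c]
    exact mul_le_mul' (mul_le_mul' (hSk k hk) (hSk l hl)) le_rfl
  have hAb : ∀ t ∈ Icc 0 T, A t ≤ ENNReal.ofReal (B ^ 2 * T) := by
    intro t ht
    rw [hA]
    refine le_trans (setLIntegral_mono' measurableSet_Ioo (g := fun _ => ENNReal.ofReal (B ^ 2)) fun τ hτ => ?_) ?_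
    · have h1 := hB τ ⟨hτ.1.le, hτ.2.le.trans ht.2⟩
      calc (∑' k, x k τ) ^ 2 ≤ ENNReal.ofReal B ^ 2 := by gcongr
        _ ≤ ENNReal.ofReal (B ^ 2) := by
          rcases le_or_gt 0 B with h | h
          · rw [ENNReal.ofReal_pow h]
          · rw [ENNReal.ofReal_of_nonpos h.le]; simp
    · rw [setLIntegral_const, Real.volume_Ioo, ← ENNReal.ofReal_mul (by positivity)]
      refine ENNReal.ofReal_le_ofReal ?_
      have : t - 0 ≤ T := by linarith [ht.2]
      exact mul_le_mul_of_nonneg_left this (by positivity)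
  have hAf : ∀ t ∈ Icc 0 T, A t ≠ ∞ := fun t ht => ne_top_of_le_ne_top ENNReal.ofReal_ne_top (hAb t ht)
  have hAi : ∀ t ∈ Icc 0 T, (A t).toReal ≤ 24 * e ^ 2 / c + 24 * C ^ 2 / c * (A t).toReal ^ 2 := by
    intro t ht
    have h1 := (hAS t ht).trans (mul_le_mul' le_rfl (hSN t))
    rw [← ENNReal.ofReal_toReal (hAf t ht), ← ENNReal.ofReal_pow ENNReal.toReal_nonneg, ← ENNReal.ofReal_mul (by positivity),
      ← ENNReal.ofReal_add (by positivity) (by positivity), ← ENNReal.ofReal_mul (by positivity),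
      ENNReal.ofReal_le_ofReal_iff (by positivity)] at h1
    refine h1.trans (le_of_eq ?_)
    field_simp
    ring
  have hA0 : (A 0).toReal = 0 := by rw [hA]; simp
  have hAc : ContinuousOn (fun t => (A t).toReal) (Icc 0 T) := by
    have key : ∀ s ∈ Icc 0 T, ∀ t ∈ Icc 0 T, s ≤ t → (A t).toReal ≤ (A s).toReal + B ^ 2 * (t - s) ∧ (A s).toReal ≤ (A t).toReal := by
      intro s hs t ht hst
      constructor
      · have h1 : A t ≤ A s + ENNReal.ofReal (B ^ 2 * (t - s)) := by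
          rw [hA]
          have hsub : Ioo 0 t ⊆ Ioo 0 s ∪ Icc s t := fun τ hτ => by
            rcases lt_or_ge τ s with h | h
            · exact Or.inl ⟨hτ.1, h⟩
            · exact Or.inr ⟨h, hτ.2.le⟩
          refine (lintegral_mono_set hsub).trans ((lintegral_union_le _ _ _).trans (add_le_add le_rfl ?_))
          refine le_trans (setLIntegral_mono' measurableSet_Icc (g := fun _ => ENNReal.ofReal (B ^ 2)) fun τ hτ => ?_) ?_
          · have h1 := hB τ ⟨hs.1.trans hτ.1, hτ.2.trans ht.2⟩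
            calc (∑' k, x k τ) ^ 2 ≤ ENNReal.ofReal B ^ 2 := by gcongr
              _ ≤ ENNReal.ofReal (B ^ 2) := by
                rcases le_or_gt 0 B with h | h
                · rw [ENNReal.ofReal_pow h]
                · rw [ENNReal.ofReal_of_nonpos h.le]; simp
          · rw [setLIntegral_const, Real.volume_Icc, ← ENNReal.ofReal_mul (by positivity)]
        have h2 := ENNReal.toReal_mono (by finiteness [hAf s hs]) h1
        rwa [ENNReal.toReal_add (hAf s hs) ENNReal.ofReal_ne_top, ENNReal.toReal_ofReal (mul_nonneg (by positivity) (by linarith))] at h2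
      · refine ENNReal.toReal_mono (hAf t ht) ?_
        exact lintegral_mono_set fun τ hτ => ⟨hτ.1, hτ.2.trans_le hst⟩
    have hlip : LipschitzOnWith (B ^ 2).toNNReal (fun t => (A t).toReal) (Icc 0 T) := by
      refine LipschitzOnWith.of_dist_le_mul fun s hs t ht => ?_
      rw [Real.coe_toNNReal _ (by positivity), Real.dist_eq, Real.dist_eq]
      rcases le_total s t with h | h
      · obtain ⟨a1, a2⟩ := key s hs t ht h
        rw [abs_of_nonpos (by linarith), abs_of_nonpos (by linarith)]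
        linarith
      · obtain ⟨a1, a2⟩ := key t ht s hs h
        rw [abs_of_nonneg (by linarith), abs_of_nonneg (by linarith)]
        linarith
    exact hlip.continuousOn
  have hsm : 4 * (24 * e ^ 2 / c) * (24 * C ^ 2 / c) < 1 := by
    have e1 : 4 * (24 * e ^ 2 / c) * (24 * C ^ 2 / c) = (48 * C * e) ^ 2 / c ^ 2 := by
      field_simp
      ring
    rw [e1, div_lt_one (by positivity)]
    exact pow_lt_pow_left₀ hce (by positivity) (by norm_num)
  have hA2 := hBOOT T (24 * e ^ 2 / c) (24 * C ^ 2 / c) (fun t => (A t).toReal) hAc hA0 (by positivity) (by positivity) hsm hAi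
  have ht' : t ∈ Icc 0 T := ⟨ht.1.le, ht.2.le⟩
  have hA3 : A t ≤ ENNReal.ofReal (48 * e ^ 2 / c) := by
    rw [← ENNReal.ofReal_toReal (hAf t ht')]
    refine ENNReal.ofReal_le_ofReal ((hA2 t ht').trans (le_of_eq ?_))
    ring
  exact hA3

end Pool.Agent.U162.SH
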