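import Pool.Agent.U162.SH.AB

/-!
The a priori bound of the integral of the square of the Wiener norm, for perturbations of given data
-/

open MeasureTheory Set Filter Topology
open scoped ENNReal NNReal

namespace Pool.Agent.U162.SH

/-- the a priori bound of the integral near given data -/
theorem apriori3 (hKER : S_KER) (hTON : S_TON) (hBOOT : S_BOOT)
    {c C T B e Y : ℝ} (hc : 0 < c) (hC : 0 ≤ C) (hY : 0 ≤ Y) (hsm : 4 * (2 * Y + 12 * e ^ 2 / c) * (48 * C ^ 2 / c) < 1)
    (x : Kk → ℝ → ℝ≥0∞) (U d : Kk → ℝ≥0∞)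
    (hx : ∀ k, Measurable (x k)) (hB : ∀ t ∈ Icc 0 T, ∑' k, x k t ≤ ENNReal.ofReal B) (h0 : ∀ t ∈ Ioo 0 T, x 0 t = 0)
    (hU : ENNReal.ofReal T * (∑' k, U k) ^ 2 ≤ ENNReal.ofReal Y)
    (hd : ∀ k, k ≠ 0 → ∀ s ∈ Ioo 0 T, x k s ≤ U k + (ENNReal.ofReal (Real.exp (-(c * sqn k * s))) * d k +
      ∫⁻ τ in Ioo 0 s, ENNReal.ofReal (Real.exp (-(c * sqn k * (s - τ)))) *
        (ENNReal.ofReal (C * Real.sqrt (sqn k)) * ∑' l, x l τ * x (k - l) τ)))
    (hi : N2 d ≤ ENNReal.ofReal (e ^ 2)) {t : ℝ} (ht : t ∈ Ioo 0 T) :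
    ∫⁻ τ in Ioo 0 t, (∑' k, x k τ) ^ 2 ≤ ENNReal.ofReal (4 * Y + 24 * e ^ 2 / c) := by
  have hT : 0 < T := ht.1.trans ht.2
  set h : Kk → ℝ → ℝ≥0∞ := fun k τ => ∑' l, x l τ * x (k - l) τ with hh
  have mh : ∀ k, Measurable (h k) := fun k => Measurable.ennreal_tsum fun l => (hx l).mul (hx (k - l))
  set G : ℝ → Kk → ℝ≥0∞ := fun t k => ∫⁻ τ in Ioo 0 t, h k τ with hG
  set S : ℝ → Kk → ℝ≥0∞ := fun t k => if k = 0 then 0 else d k + ENNReal.ofReal (C * Real.sqrt (sqn k)) * G t k with hS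
  set A : ℝ → ℝ≥0∞ := fun t => ∫⁻ τ in Ioo 0 t, (∑' k, x k τ) ^ 2 with hA
  set z : Kk → ℝ → ℝ≥0∞ := fun k τ => if k = 0 then 0 else x k τ - U k with hz
  have hzm : ∀ k, Measurable (z k) := fun k => by
    rw [hz]
    by_cases hk : k = 0
    · simp only [if_pos hk]; exact measurable_const
    · simp only [if_neg hk]; exact (hx k).sub_const _
  have hGA : ∀ t, ∑' k, G t k = A t := by
    intro t
    rw [hG, hA]
    simp only
    rw [← lintegral_tsum fun k => (mh k).aemeasurable]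
    refine lintegral_congr fun τ => ?_
    exact conv_sum fun k => x k τ
  have hSN : ∀ t, N2 (S t) ≤ ENNReal.ofReal (2 * e ^ 2) + ENNReal.ofReal (8 * C ^ 2) * A t ^ 2 := by
    intro t
    have h1 : N2 (S t) ≤ N2 (fun k => d k + ENNReal.ofReal (C * Real.sqrt (sqn k)) * G t k) :=
      N2_mono fun k hk => by rw [hS]; simp only [if_neg hk]; exact le_rfl
    refine h1.trans ((N2_add _ _).trans ?_)
    refine (add_le_add (mul_le_mul' le_rfl hi) (mul_le_mul' le_rfl (N2_grad hC (G t)))).trans (le_of_eq ?_)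
    have e2 : (2 : ℝ≥0∞) * ENNReal.ofReal (e ^ 2) = ENNReal.ofReal (2 * e ^ 2) := by
      rw [show (2 : ℝ≥0∞) = ENNReal.ofReal 2 by norm_num, ← ENNReal.ofReal_mul (by norm_num)]
    have e3 : (2 : ℝ≥0∞) * ENNReal.ofReal (4 * C ^ 2) = ENNReal.ofReal (8 * C ^ 2) := by
      rw [show (2 : ℝ≥0∞) = ENNReal.ofReal 2 by norm_num, ← ENNReal.ofReal_mul (by norm_num)]
      congr 1; ring
    rw [hGA, e2, ← mul_assoc, e3]
  have hZS : ∀ t ∈ Icc 0 T, ∫⁻ τ in Ioo 0 t, (∑' k, z k τ) ^ 2 ≤ ENNReal.ofReal (3 / c) * N2 (S t) := by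
    intro t ht
    have e1 : ∫⁻ τ in Ioo 0 t, (∑' k, z k τ) ^ 2 = ∑' k, ∑' l, ∫⁻ τ in Ioo 0 t, z k τ * z l τ := by
      simp only [prod_sum]
      have mm : ∀ k l, Measurable fun τ => z k τ * z l τ := fun k l => (hzm k).mul (hzm l)
      rw [lintegral_tsum (f := fun k τ => ∑' l, z k τ * z l τ) fun k => (Measurable.ennreal_tsum (mm k)).aemeasurable]
      refine tsum_congr fun k => ?_
      rw [lintegral_tsum (f := fun l τ => z k τ * z l τ) fun l => (mm k l).aemeasurable]
    rw [e1]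
    refine le_trans ?_ (hKER c hc (S t) (by rw [hS]; simp))
    refine ENNReal.tsum_le_tsum fun k => ENNReal.tsum_le_tsum fun l => ?_
    by_cases hk : k = 0
    · have : ∀ τ, z k τ * z l τ = 0 := fun τ => by rw [hz]; simp only [if_pos hk, zero_mul]
      simp only [this, lintegral_zero]; exact bot_le
    by_cases hl : l = 0
    · have : ∀ τ, z k τ * z l τ = 0 := fun τ => by rw [hz]; simp only [if_pos hl, mul_zero]
      simp only [this, lintegral_zero]; exact bot_le
    have pos : ∀ k : Kk, k ≠ 0 → 0 < c * sqn k := by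
      intro k hk
      refine mul_pos hc ?_
      have : 0 < sqn k := by
        obtain ⟨i, hi⟩ := Function.ne_iff.1 hk
        have hi' : k i ≠ 0 := hi
        exact Finset.sum_pos' (fun i _ => sq_nonneg _) ⟨i, Finset.mem_univ i, by positivity⟩
      exact_mod_cast this
    have hzd : ∀ k : Kk, k ≠ 0 → ∀ s ∈ Ioo 0 t, z k s ≤ ENNReal.ofReal (Real.exp (-(c * sqn k * s))) * d k +
        ∫⁻ τ in Ioo 0 s, ENNReal.ofReal (Real.exp (-(c * sqn k * (s - τ)))) *
        (ENNReal.ofReal (C * Real.sqrt (sqn k)) * h k τ) := by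
      intro k hk s hs
      rw [hz]
      simp only [if_neg hk]
      exact tsub_le_iff_left.2 (hd k hk s ⟨hs.1, hs.2.trans_le ht.2⟩)
    have key := hTON (c * sqn k) (c * sqn l) t (pos k hk) (pos l hl) (z k) (z l)
      (fun τ => ENNReal.ofReal (C * Real.sqrt (sqn k)) * h k τ) (fun τ => ENNReal.ofReal (C * Real.sqrt (sqn l)) * h l τ)
      (d k) (d l) ((mh k).const_mul _) ((mh l).const_mul _) (hzd k hk) (hzd l hl)
    refine key.trans ?_
    have hSk : ∀ k : Kk, k ≠ 0 → d k + ∫⁻ τ in Ioo 0 t, ENNReal.ofReal (C * Real.sqrt (sqn k)) * h k τ ≤ S t k := by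
      intro k hk
      rw [hS]
      simp only [if_neg hk]
      rw [lintegral_const_mul _ (mh k)]
    rw [← mul_add c]
    exact mul_le_mul' (mul_le_mul' (hSk k hk) (hSk l hl)) le_rfl
  have hAS : ∀ t ∈ Icc 0 T, A t ≤ ENNReal.ofReal (2 * Y) + ENNReal.ofReal (6 / c) * N2 (S t) := by
    intro t ht
    have h1 : ∀ τ ∈ Ioo 0 t, (∑' k, x k τ) ^ 2 ≤ 2 * (∑' k, U k) ^ 2 + 2 * (∑' k, z k τ) ^ 2 := by
      intro τ hτ
      refine le_trans ?_ (sq_add_le _ _)
      gcongr
      rw [← ENNReal.tsum_add]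
      refine ENNReal.tsum_le_tsum fun k => ?_
      by_cases hk : k = 0
      · rw [hk, h0 τ ⟨hτ.1, hτ.2.trans_le ht.2⟩]; exact bot_le
      · rw [hz]
        simp only [if_neg hk]
        exact le_add_tsub
    refine (setLIntegral_mono' measurableSet_Ioo h1).trans ?_
    rw [lintegral_add_left measurable_const, setLIntegral_const, Real.volume_Ioo, lintegral_const_mul _ (by
      exact (Measurable.ennreal_tsum hzm).pow_const _)]
    refine add_le_add ?_ ?_
    · have h2 : ENNReal.ofReal (t - 0) ≤ ENNReal.ofReal T := ENNReal.ofReal_le_ofReal (by linarith [ht.2])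
      calc 2 * (∑' k, U k) ^ 2 * ENNReal.ofReal (t - 0) ≤ 2 * (∑' k, U k) ^ 2 * ENNReal.ofReal T := by gcongr
        _ = 2 * (ENNReal.ofReal T * (∑' k, U k) ^ 2) := by ring
        _ ≤ 2 * ENNReal.ofReal Y := by gcongr
        _ = _ := by rw [show (2 : ℝ≥0∞) = ENNReal.ofReal 2 by norm_num, ← ENNReal.ofReal_mul (by norm_num)]
    · refine (mul_le_mul' le_rfl (hZS t ht)).trans (le_of_eq ?_)
      rw [← mul_assoc, show (2 : ℝ≥0∞) = ENNReal.ofReal 2 by norm_num, ← ENNReal.ofReal_mul (by norm_num)]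
      congr 2; ring
  have hAb : ∀ t ∈ Icc 0 T, A t ≤ ENNReal.ofReal (B ^ 2 * T) := by
    intro t ht
    rw [hA]
    refine le_trans (setLIntegral_mono' measurableSet_Ioo (g := fun _ => ENNReal.ofReal (B ^ 2)) fun τ hτ => ?_) ?_
    · have h1 := hB τ ⟨hτ.1.le, hτ.2.le.trans ht.2⟩
      calc (∑' k, x k τ) ^ 2 ≤ ENNReal.ofReal B ^ 2 := by gcongr
        _ ≤ ENNReal.ofReal (B ^ 2) := by
          rcases le_or_gt 0 B with h | h
          · rw [ENNReal.ofReal_pow h]
          · rw [ENNReal.ofReal_of_nonpos h.le]; simp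
    · rw [setLIntegral_const, Real.volume_Ioo, ← ENNReal.ofReal_mul (by positivity)]
      refine ENNReal.ofReal_le_ofReal ?_
      have : t - 0 ≤ T := by linarith [ht.2]
      exact mul_le_mul_of_nonneg_left this (by positivity)
  have hAf : ∀ t ∈ Icc 0 T, A t ≠ ∞ := fun t ht => ne_top_of_le_ne_top ENNReal.ofReal_ne_top (hAb t ht)
  have hAi : ∀ t ∈ Icc 0 T, (A t).toReal ≤ (2 * Y + 12 * e ^ 2 / c) + 48 * C ^ 2 / c * (A t).toReal ^ 2 := by
    intro t ht
    have h1 := (hAS t ht).trans (add_le_add le_rfl (mul_le_mul' le_rfl (hSN t)))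
    rw [← ENNReal.ofReal_toReal (hAf t ht), ← ENNReal.ofReal_pow ENNReal.toReal_nonneg, ← ENNReal.ofReal_mul (by positivity),
      ← ENNReal.ofReal_add (by positivity) (by positivity), ← ENNReal.ofReal_mul (by positivity),
      ← ENNReal.ofReal_add (by positivity) (by positivity), ENNReal.ofReal_le_ofReal_iff (by positivity)] at h1
    refine h1.trans (le_of_eq ?_)
    field_simp
    ring
  have hA0 : (A 0).toReal = 0 := by rw [hA]; simp
  have hAc : ContinuousOn (fun t => (A t).toReal) (Icc 0 T) := by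
    have key : ∀ s ∈ Icc 0 T, ∀ t ∈ Icc 0 T, s ≤ t → (A t).toReal ≤ (A s).toReal + B ^ 2 * (t - s) ∧ (A s).toReal ≤ (A t).toReal := by
      intro s hs t ht hst
      constructor
      · have h1 : A t ≤ A s + ENNReal.ofReal (B ^ 2 * (t - s)) := by
          rw [hA]
          have hsub : Ioo 0 t ⊆ Ioo 0 s ∪ Icc s t := fun τ hτ => by
            rcases lt_or_ge τ s with h | h
            · exact Or.inl ⟨hτ.1, h⟩
            · exact Or.inr ⟨h, hτ.2.le⟩
          refine (lintegral_mono_set hsub).trans ((lintegral_union_le _ _ _).trans (add_le_add le_rfl ?_))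
          refine le_trans (setLIntegral_mono' measurableSet_Icc (g := fun _ => ENNReal.ofReal (B ^ 2)) fun τ hτ => ?_) ?_
          · have h1 := hB τ ⟨hs.1.trans hτ.1, hτ.2.trans ht.2⟩
            calc (∑' k, x k τ) ^ 2 ≤ ENNReal.ofReal B ^ 2 := by gcongr
              _ ≤ ENNReal.ofReal (B ^ 2) := by
                rcases le_or_gt 0 B with h | h
                · rw [ENNReal.ofReal_pow h]
                · rw [ENNReal.ofReal_of_nonpos h.le]; simp
          · rw [setLIntegral_const, Real.volume_Icc, ← ENNReal.ofReal_mul (by positivity)]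
        have h2 := ENNReal.toReal_mono (by finiteness [hAf s hs]) h1
        rwa [ENNReal.toReal_add (hAf s hs) ENNReal.ofReal_ne_top, ENNReal.toReal_ofReal (mul_nonneg (by positivity) (by linarith))] at h2
      · refine ENNReal.toReal_mono (hAf t ht) ?_
        exact lintegral_mono_set fun τ hτ => ⟨hτ.1, hτ.2.trans_le hst⟩
    have hlip : LipschitzOnWith (B ^ 2).toNNReal (fun t => (A t).toReal) (Icc 0 T) := by
      refine LipschitzOnWith.of_dist_le_mul fun s hs t ht => ?_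
      rw [Real.coe_toNNReal _ (by positivity), Real.dist_eq, Real.dist_eq]
      rcases le_total s t with h | h
      · obtain ⟨a1, a2⟩ := key s hs t ht h
        rw [abs_of_nonpos (by linarith), abs_of_nonpos (by linarith)]
        linarith
      · obtain ⟨a1, a2⟩ := key t ht s hs h
        rw [abs_of_nonneg (by linarith), abs_of_nonneg (by linarith)]
        linarith
    exact hlip.continuousOn
  have hA2 := hBOOT T (2 * Y + 12 * e ^ 2 / c) (48 * C ^ 2 / c) (fun t => (A t).toReal) hAc hA0 (by positivity) (by positivity) hsm hAi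
  have ht' : t ∈ Icc 0 T := ⟨ht.1.le, ht.2.le⟩
  have hA3 : A t ≤ ENNReal.ofReal (4 * Y + 24 * e ^ 2 / c) := by
    rw [← ENNReal.ofReal_toReal (hAf t ht')]
    refine ENNReal.ofReal_le_ofReal ((hA2 t ht').trans (le_of_eq ?_))
    ring
  exact hA3

end Pool.Agent.U162.SH
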