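import Pool.Agent.U162.SH.Rig

/-!
Small data rigidity for admissible periodic solutions
-/

open MeasureTheory Set Filter Topology
open scoped ENNReal NNReal ContDiff

namespace Pool.Agent.U162.SF

open Pool.Agent.H356R3.NS Pool.Agent.U162.TS Pool.Agent.U162.GE Pool.Agent.U162.TS.EL Pool.Agent.U162.TS.VF Pool.Agent.U162.TS.Ph Pool.Agent.U162.PL Pool.Agent.U162.MU Pool.Agent.U162.LX Pool.Agent.U162.SH

variable {ν : ℝ} {b : R3 → R3} {u : ℝ → R3 → R3} {p : ℝ → R3 → ℝ}

lemma adm_sm (h : AdmissiblePeriodic ν b u p) (T : ℝ) (i : Fin 3) : Sm T fun t x => u t x i where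
  smooth := (contDiffOn_pi.1 h.smooth_u i).mono (prod_mono (fun _ hs => hs.1) subset_rfl)
  sp := fun t ht => by
    refine ⟨?_, fun j x => by show u t (x + Pi.single j 1) i = u t x i; rw [h.periodic_u t ht.1]⟩
    rw [← contDiffOn_univ]
    exact (contDiffOn_pi.1 h.smooth_u i).comp (f := fun x : R3 => ((t, x) : ℝ × R3)) (contDiff_const.prodMk contDiff_id).contDiffOn
      fun x _ => ⟨ht.1, trivial⟩

lemma adm_smp (h : AdmissiblePeriodic ν b u p) (T : ℝ) : Sm T p where
  smooth := h.smooth_p.mono (prod_mono (fun _ hs => hs.1) subset_rfl)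
  sp := fun t ht => by
    refine ⟨?_, fun j x => h.periodic_p t ht.1 x j⟩
    rw [← contDiffOn_univ]
    exact h.smooth_p.comp (f := fun x : R3 => ((t, x) : ℝ × R3)) (contDiff_const.prodMk contDiff_id).contDiffOn
      fun x _ => ⟨ht.1, trivial⟩

lemma adm_mo (h : AdmissiblePeriodic ν b u p) {t : ℝ} (ht : 0 < t) (x : R3) (i : Fin 3) :
    deriv (fun s => u s x i) t = (0 : ℝ → R3 → R3) t x i - Rs ν (u t) x i - pd i (p t) x := by
  have h1 := h.momentum t ht.le x i
  rw [derivWithin_of_mem_nhds (Ici_mem_nhds ht)] at h1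
  have h2 : Rs ν (u t) x i = (∑ j, u t x j * pd j (fun y => u t y i) x) + (-ν) * ∑ j, pd j (pd j fun y => u t y i) x := rfl
  rw [h2]
  show _ = 0 - _ - _
  linarith

/-- the mean is conserved -/
lemma adm_mean (h : AdmissiblePeriodic ν b u p) (hb : Field b) {t : ℝ} (ht : 0 ≤ t) : H356R3.NS.fc (u t) 0 = 0 := by
  rcases ht.eq_or_lt with h0 | h0
  · rw [← h0, h.initial]
    exact hb.dta.mean
  have sm := adm_sm h (t + 1)
  have spf : ∀ s ∈ Ico 0 (t + 1), SPF (u s) := fun s hs i => (sm i).sp s hs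
  have hd : ∀ s ∈ Ioo 0 t, HasDerivAt (fun s => H356R3.NS.fc (u s) 0) 0 s := by
    intro s hs
    have hs' : s ∈ Ioo 0 (t + 1) := ⟨hs.1, hs.2.trans (by linarith)⟩
    have hs2 : s ∈ Ico 0 (t + 1) := ⟨hs.1.le, hs'.2⟩
    have h1 : HasDerivAt (fun s => H356R3.NS.fc (u s) 0) (H356R3.NS.fc (fun x i => dtw (t + 1) (fun t x => u t x i) s x) 0) s := by
      refine hasDerivAt_pi.2 fun i => ?_
      have h2 := fr_hd (sm i) hs' 0
      simp only [fr_eq_fc] at h2
      have e : H459R3.NS.fr (dtw (t + 1) (fun t x => u t x i) s) 0 = H356R3.NS.fc (fun x i => dtw (t + 1) (fun t x => u t x i) s x) 0 i :=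
        fr_eq_fc (fun x i => dtw (t + 1) (fun t x => u t x i) s x) 0 i
      rw [← e]
      exact h2
    have e1 : (fun x i => dtw (t + 1) (fun t x => u t x i) s x) = fun x => ((fun _ => 0 : R3 → R3) x - Rs ν (u s) x) - (fun i => pd i (p s) x : R3) := by
      funext x i
      rw [dtw_dt hs']
      exact adm_mo h hs.1 x i
    have s0 : SPF (fun _ => 0 : R3 → R3) := field_zero.sp
    have sR : SPF (Rs ν (u s)) := Rs_spf (spf s hs2)
    have sg : SPF (fun x i => pd i (p s) x) := fun i => ((adm_smp h (t + 1)).sp s hs2).pd i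
    have hg : H356R3.NS.fc (fun x i => pd i (p s) x) 0 = 0 := by
      funext i
      rw [← fr_eq_fc]
      have := congrFun (H459R3.NS.fr_pd ((adm_smp h (t + 1)).sp s hs2) i) 0
      refine this.trans ?_
      unfold H459R3.NS.D
      simp
    rw [e1, fc_sub (s0.sub sR) sg, fc_sub s0 sR, fc_Rs0 (spf s hs2) (h.divFree s hs.1.le), hg] at h1
    have h3 : H356R3.NS.fc (fun _ => 0 : R3 → R3) 0 = 0 := field_zero.dta.mean
    rw [h3, sub_zero, sub_zero] at h1
    exact h1
  have hct : ContinuousOn (fun s => H356R3.NS.fc (u s) 0) (Icc 0 t) :=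
    (fc_ct sm 0).mono fun s hs => ⟨hs.1, hs.2.trans_lt (by linarith)⟩
  have hft := intervalIntegral.integral_eq_sub_of_hasDerivAt_of_le h0.le hct hd intervalIntegrable_const
  rw [intervalIntegral.integral_zero] at hft
  have h4 : H356R3.NS.fc (u 0) 0 = 0 := by rw [h.initial]; exact hb.dta.mean
  rw [h4, sub_zero] at hft
  exact hft.symm

lemma adm_sln (h : AdmissiblePeriodic ν b u p) (hb : Field b) (T : ℝ) : Sln ν T 0 u p where
  hu := adm_sm h T
  huf := fun t ht => by
    have sp : SPF (u t) := fun i => (adm_sm h T i).sp t ht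
    refine ⟨contDiff_pi.2 fun i => (sp i).smooth, h.periodic_u t ht.1, h.divFree t ht.1, fun i => ?_⟩
    have h1 := congrFun (adm_mean h hb ht.1) i
    unfold H356R3.NS.fc at h1
    simp only [Pi.zero_apply, Int.cast_zero, zero_mul, Finset.sum_const_zero, mul_zero, neg_zero, Complex.exp_zero,
      mul_one] at h1
    rw [integral_complex_ofReal] at h1
    exact_mod_cast h1
  hf := fun i => ⟨contDiffOn_const, fun _ _ => field_zero.sp i⟩
  hp := adm_smp h T
  mo := fun t ht x i => adm_mo h ht.1 x i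

/-- small data rigidity for the unforced equation -/
theorem rigid_adm (hν : 0 < ν) (h : AdmissiblePeriodic ν b u p) (hb : Field b) {e : ℝ} (he : 0 ≤ e) (hs : e ≤ ν / 300)
    (hi : critNorm 2 (H356R3.NS.fc b) ≤ ENNReal.ofReal e) {t : ℝ} (ht : 0 ≤ t) :
    critNorm 2 (H356R3.NS.fc (u t)) ≤ ENNReal.ofReal (4 * e) := by
  refine rigid hν (adm_sln h hb (t + 1)) he hs (by rw [h.initial]; exact hi) ?_ ⟨ht, by linarith⟩
  have h1 : Nc 2 (fun _ => 0 : R3 → R3) = 0 := Nc_zero (by norm_num)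
  have h3 : critNorm 2 (H356R3.NS.fc (0 : R3 → R3)) = 0 := h1
  simp [h3]

end Pool.Agent.U162.SF
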