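import Pool.Agent.U162.SH.Stb
import Pool.Agent.U162.SH.AB2

/-!
The growth of the Lei-Lin norm of solutions which are small in `FB^{-1}_{1,2}`
-/

open MeasureTheory Set Filter Topology
open scoped ENNReal NNReal ContDiff

namespace Pool.Agent.U162.SF

open Pool.Agent.H356R3.NS Pool.Agent.U162.TS Pool.Agent.U162.GE Pool.Agent.U162.TS.EL Pool.Agent.U162.TS.VF Pool.Agent.U162.TS.Ph Pool.Agent.U162.PL Pool.Agent.U162.MU Pool.Agent.U162.LX Pool.Agent.U162.SH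

variable {T ν : ℝ} {f u : ℝ → R3 → R3} {p : ℝ → R3 → ℝ}

/-- small data rigidity: the velocity is small in `L^2 A` -/
theorem rigidA (hν : 0 < ν) (h : Sln ν T f u p) {e : ℝ} (he : 0 ≤ e) (hs : e ≤ ν / 300)
    (hi : critNorm 2 (H356R3.NS.fc (u 0)) ≤ ENNReal.ofReal e)
    (hf : ∫⁻ t in Ioo 0 T, critNorm 2 (H356R3.NS.fc (f t)) ≤ ENNReal.ofReal (e / 4)) {t : ℝ} (ht : t ∈ Ioo 0 T) :
    ∫⁻ τ in Ioo 0 t, (∑' k, ‖H356R3.NS.fc (u τ) k‖ₑ) ^ 2 ≤ ENNReal.ofReal (48 * e ^ 2 / (4 * Real.pi ^ 2 * ν)) := by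
  have h0 := ht.1
  obtain ⟨b, hb⟩ : ∃ b : ℝ, b = (t + T) / 2 := ⟨_, rfl⟩
  have htb : t < b := by rw [hb]; linarith [ht.2]
  have hbT : b < T := by rw [hb]; linarith [ht.2]
  have hb0 : 0 < b := h0.trans htb
  set cl : ℝ → ℝ := fun s => max 0 (min s b) with hcl
  have ccl : Continuous cl := continuous_const.max (continuous_id.min continuous_const)
  have mcl : ∀ s, cl s ∈ Ico 0 T := fun s => ⟨le_max_left _ _, (max_lt (hb0.trans hbT) ((min_le_right _ _).trans_lt hbT))⟩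
  have ecl : ∀ s ∈ Icc 0 b, cl s = s := fun s hs => by
    rw [hcl]; simp only; rw [min_eq_left hs.2, max_eq_right hs.1]
  obtain ⟨M, hM0, hM⟩ := Wm_bd h.hu hbT 0
  have mcl2 : ∀ s, cl s ∈ Icc 0 b := fun s => ⟨le_max_left _ _, max_le hb0.le (min_le_right _ _)⟩
  have hx : ∀ k : K, Measurable fun s => ‖H356R3.NS.fc (u (cl s)) k‖ₑ := fun k =>
    ((fc_ct h.hu k).comp_continuous ccl mcl).enorm.measurable
  have hφ : ∀ k : K, Measurable fun s => 4 * ‖H356R3.NS.fc (f (cl s)) k‖ₑ := fun k =>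
    ((fc_ct h.hf k).comp_continuous ccl mcl).enorm.measurable.const_mul 4
  have hπ : 39 < 4 * Real.pi ^ 2 := by
    have := Real.pi_gt_d2
    nlinarith
  have key := apriori2 Pool.Agent.U810.SH.KER.t_KER Pool.Agent.U162.SH.t_TON Pool.Agent.U608.SH.MIN.t_MIN Pool.Agent.U402.SH.t_BOOT
    (c := 4 * Real.pi ^ 2 * ν) (C := 240) (T := b) (B := M) (e := e) (by positivity) (by norm_num) he (by nlinarith)
    (fun k s => ‖H356R3.NS.fc (u (cl s)) k‖ₑ) (fun k s => 4 * ‖H356R3.NS.fc (f (cl s)) k‖ₑ) hx hφ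
    (fun s _ => (Wn_le_Wm 0 _).trans (hM _ (mcl2 s))) (fun s _ => by rw [(h.huf _ (mcl s)).dta.mean]; simp)
    (fun k hk s hs => by
      have hs' : s ∈ Ioo 0 T := ⟨hs.1, hs.2.trans hbT⟩
      have h1 := h.duh hs' hk
      rw [sqn_eq, ecl s ⟨hs.1.le, hs.2.le⟩, ecl 0 ⟨le_rfl, hb0.le⟩]
      refine h1.trans (le_of_eq ?_)
      congr 1
      refine setLIntegral_congr_fun measurableSet_Ioo fun τ hτ => ?_
      rw [ecl τ ⟨hτ.1.le, (hτ.2.trans hs.2).le⟩]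
      rfl)
    (by
      rw [ecl 0 ⟨le_rfl, hb0.le⟩]
      exact N2_le_of_crit he hi)
    (by
      have e1 : ∫⁻ τ in Ioo 0 b, (N2 fun k : K => 4 * ‖H356R3.NS.fc (f (cl τ)) k‖ₑ) ^ (1 / 2 : ℝ)
          = ∫⁻ τ in Ioo 0 b, 4 * critNorm 2 (H356R3.NS.fc (f τ)) := by
        refine setLIntegral_congr_fun measurableSet_Ioo fun τ hτ => ?_
        rw [ecl τ ⟨hτ.1.le, hτ.2.le⟩, N2_four, ← crit_eq]
      rw [e1, lintegral_const_mul' _ _ (by norm_num)]
      refine (mul_le_mul' le_rfl ((lintegral_mono_set (show Ioo 0 b ⊆ Ioo 0 T from fun τ hτ => ⟨hτ.1, hτ.2.trans hbT⟩)).trans hf)).trans (le_of_eq ?_)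
      rw [show (4 : ℝ≥0∞) = ENNReal.ofReal 4 by norm_num, ← ENNReal.ofReal_mul (by norm_num)]
      congr 1; ring)
    (t := t) ⟨h0, htb⟩
  refine le_trans (le_of_eq ?_) key
  refine setLIntegral_congr_fun measurableSet_Ioo fun τ hτ => ?_
  rw [ecl τ ⟨hτ.1.le, (hτ.2.trans htb).le⟩]

lemma nk_sqrt (k : K) : Real.sqrt (∑ i, (k i : ℝ) ^ 2) = nk k := rfl

/-- the Lei-Lin norm of small solutions -/
theorem ll_bound (hν : 0 < ν) (h : Sln ν T 0 u p) {e : ℝ} (he : 0 ≤ e) (hs : e ≤ ν / 300)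
    (hi : critNorm 2 (H356R3.NS.fc (u 0)) ≤ ENNReal.ofReal e) {t : ℝ} (ht : t ∈ Ico 0 T) :
    leiLin (H356R3.NS.fc (u t)) ≤ leiLin (fun k i => ((Real.exp (-(4 * Real.pi ^ 2 * ν * (∑ j, (k j : ℝ) ^ 2) * t)) : ℝ) : ℂ) * H356R3.NS.fc (u 0) k i)
      + ENNReal.ofReal (300 * e ^ 2 / ν) := by
  rcases ht.1.eq_or_lt with h0 | h0
  · rw [← h0]
    refine le_trans (le_of_eq ?_) le_self_add
    congr 1
    funext k i
    simp
  have ht' : t ∈ Ioo 0 T := ⟨h0, ht.2⟩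
  have z0 : H356R3.NS.fc (0 : R3 → R3) = 0 := by
    funext k i
    unfold H356R3.NS.fc
    simp
  have z1 : critNorm 2 (H356R3.NS.fc (0 : R3 → R3)) = 0 := Nc_zero (by norm_num)
  have hA := rigidA hν h he hs hi (by simp [z1]) ht'
  set x : K → ℝ → ℝ≥0∞ := fun k τ => ‖H356R3.NS.fc (u τ) k‖ₑ with hx
  have hxm : ∀ k, AEMeasurable (x k) (volume.restrict (Ioo 0 t)) := fun k =>
    (((fc_ct h.hu k).mono fun s hs => ⟨hs.1.le, hs.2.trans ht.2⟩).enorm.aemeasurable measurableSet_Ioo)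
  have hk : ∀ k : K, k ≠ 0 → x k t ≤ ‖(fun i => ((Real.exp (-(4 * Real.pi ^ 2 * ν * (∑ j, (k j : ℝ) ^ 2) * t)) : ℝ) : ℂ) * H356R3.NS.fc (u 0) k i : C3)‖ₑ
      + ENNReal.ofReal (240 * nk k) * ∫⁻ τ in Ioo 0 t, ∑' l, x l τ * x (k - l) τ := by
    intro k hk
    refine (h.duh ht' hk).trans (add_le_add (le_of_eq ?_) ?_)
    · have e1 : (fun i => ((Real.exp (-(4 * Real.pi ^ 2 * ν * (∑ j, (k j : ℝ) ^ 2) * t)) : ℝ) : ℂ) * H356R3.NS.fc (u 0) k i : C3)
          = Real.exp (-(4 * Real.pi ^ 2 * ν * H356R3.NS.sq k * t)) • H356R3.NS.fc (u 0) k := by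
        funext i
        simp only [Pi.smul_apply, Complex.real_smul]
        rfl
      rw [e1, enorm_smul, ← ofReal_norm (Real.exp _), Real.norm_of_nonneg (Real.exp_pos _).le]
    · rw [← lintegral_const_mul' _ _ ENNReal.ofReal_ne_top]
      refine setLIntegral_mono' measurableSet_Ioo fun τ hτ => ?_
      refine (mul_le_of_le_one_left (by positivity) ?_).trans (le_of_eq ?_)
      · rw [← ENNReal.ofReal_one]
        refine ENNReal.ofReal_le_ofReal ?_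
        rw [Real.exp_le_one_iff]
        have h1 : 0 ≤ 4 * Real.pi ^ 2 * ν * H356R3.NS.sq k := mul_nonneg (by positivity) (Finset.sum_nonneg fun _ _ => sq_nonneg _)
        have h2 : 0 ≤ t - τ := by linarith [hτ.2]
        have := mul_nonneg h1 h2
        linarith
      · have : ‖H356R3.NS.fc ((0 : ℝ → R3 → R3) τ) k‖ₑ = 0 := by
          show ‖H356R3.NS.fc (0 : R3 → R3) k‖ₑ = 0
          rw [z0]; simp
        rw [this, mul_zero, zero_add]
  have hsum : leiLin (H356R3.NS.fc (u t)) ≤ ∑' k : K, ((if k = 0 then 0 else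
      ‖(fun i => ((Real.exp (-(4 * Real.pi ^ 2 * ν * (∑ j, (k j : ℝ) ^ 2) * t)) : ℝ) : ℂ) * H356R3.NS.fc (u 0) k i : C3)‖ₑ
        / ENNReal.ofReal (Real.sqrt (∑ i, (k i : ℝ) ^ 2)))
      + 240 * ∫⁻ τ in Ioo 0 t, ∑' l, x l τ * x (k - l) τ) := by
    unfold leiLin
    refine ENNReal.tsum_le_tsum fun k => ?_
    by_cases h2 : k = 0
    · rw [if_pos h2, if_pos h2]; exact bot_le
    rw [if_neg h2, if_neg h2]
    have hn : 0 < nk k := lt_of_lt_of_le one_pos (one_le_nk h2)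
    refine (ENNReal.div_le_div_right (hk k h2) _).trans ?_
    rw [ENNReal.add_div]
    refine add_le_add le_rfl ?_
    rw [nk_sqrt]
    refine ENNReal.div_le_of_le_mul ?_
    rw [ENNReal.ofReal_mul (by norm_num), show ENNReal.ofReal 240 = 240 by norm_num]
    refine le_of_eq ?_
    ring
  refine hsum.trans ?_
  rw [ENNReal.tsum_add]
  refine add_le_add le_rfl ?_
  rw [ENNReal.tsum_mul_left]
  have e2 : ∑' k, ∫⁻ τ in Ioo 0 t, ∑' l, x l τ * x (k - l) τ = ∫⁻ τ in Ioo 0 t, (∑' k, x k τ) ^ 2 := by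
    have mm : ∀ k : K, AEMeasurable (fun τ => ∑' l, x l τ * x (k - l) τ) (volume.restrict (Ioo 0 t)) := fun k =>
      AEMeasurable.tsum fun l => (hxm l).mul (hxm (k - l))
    rw [← lintegral_tsum (f := fun (k : K) τ => ∑' l, x l τ * x (k - l) τ) mm]
    refine lintegral_congr fun τ => ?_
    exact conv_sum fun k => x k τ
  rw [e2]
  refine (mul_le_mul' le_rfl hA).trans ?_
  rw [show (240 : ℝ≥0∞) = ENNReal.ofReal 240 by norm_num, ← ENNReal.ofReal_mul (by norm_num)]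
  refine ENNReal.ofReal_le_ofReal ?_
  have hπ : 39 < 4 * Real.pi ^ 2 := by
    have := Real.pi_gt_d2
    nlinarith
  have hπ2 : 240 * 48 ≤ 300 * (4 * Real.pi ^ 2) := by nlinarith
  rw [← mul_div_assoc, div_le_div_iff₀ (by positivity) hν]
  have : 0 ≤ e ^ 2 * ν := by positivity
  nlinarith

end Pool.Agent.U162.SF
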