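import Pool.Agent.U162.LX.A12
import Pool.Agent.U162.SH.AB

/-!
The Duhamel inequality for the Fourier coefficients of smooth solutions
-/

open MeasureTheory Set Filter Topology
open scoped ENNReal NNReal ContDiff

namespace Pool.Agent.U162.SF

open Pool.Agent.H356R3.NS Pool.Agent.U162.TS Pool.Agent.U162.GE Pool.Agent.U162.TS.EL Pool.Agent.U162.TS.VF Pool.Agent.U162.TS.Ph Pool.Agent.U162.PL Pool.Agent.U162.MU Pool.Agent.U162.LX

variable {T ν : ℝ}

lemma fr_mul_le {z : R3 → R3} (hz : SPF z) (i j : Fin 3) (k : K) :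
    ‖H459R3.NS.fr (fun y => z y j * z y i) k‖ₑ ≤ ∑' l, ‖H356R3.NS.fc z l‖ₑ * ‖H356R3.NS.fc z (k - l)‖ₑ := by
  rw [← (Pool.Agent.Q63.Win.fr_mul (hz j) (hz i) k).tsum_eq]
  refine enorm_tsum_le_tsum_enorm.trans (ENNReal.tsum_le_tsum fun q => ?_)
  have h : ∀ (a : Fin 3) (l : K), ‖H459R3.NS.fr (fun y => z y a) l‖ₑ ≤ ‖H356R3.NS.fc z l‖ₑ := fun a l => by
    rw [fr_eq_fc, ← ofReal_norm, ← ofReal_norm]
    exact ENNReal.ofReal_le_ofReal (norm_le_pi_norm _ a)
  rw [enorm_mul, mul_comm]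
  exact mul_le_mul' (h i q) (h j (k - q))

lemma fc_adv_le {z : R3 → R3} (hz : SPF z) (hd : ∀ x, ∑ i, pd i (fun y => z y i) x = 0) (k : K) :
    ‖H356R3.NS.fc (adv z) k‖ₑ ≤ ENNReal.ofReal (60 * nk k) * ∑' l, ‖H356R3.NS.fc z l‖ₑ * ‖H356R3.NS.fc z (k - l)‖ₑ := by
  have h2 : ‖H356R3.NS.fc (adv z) k‖ ≤ 2 * Real.pi * nk k * ∑ j : Fin 3, ∑ i : Fin 3, ‖H459R3.NS.fr (fun y => z y j * z y i) k‖ := by
    rw [pi_norm_le_iff_of_nonneg (by have := nk_nonneg k; positivity)]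
    intro i
    rw [fc_adv hz hd, Finset.mul_sum]
    refine (norm_sum_le _ _).trans (Finset.sum_le_sum fun j _ => ?_)
    rw [norm_mul, norm_mul]
    have e1 : ‖2 * (Real.pi : ℂ) * Complex.I‖ = 2 * Real.pi := by
      rw [norm_mul, norm_mul, Complex.norm_I, Complex.norm_real]
      simp [abs_of_pos Real.pi_pos]
    rw [e1, Complex.norm_intCast]
    have e2 : ‖H459R3.NS.fr (fun y => z y j * z y i) k‖ ≤ ∑ i : Fin 3, ‖H459R3.NS.fr (fun y => z y j * z y i) k‖ :=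
      Finset.single_le_sum (f := fun i => ‖H459R3.NS.fr (fun y => z y j * z y i) k‖) (fun _ _ => norm_nonneg _) (Finset.mem_univ i)
    exact mul_le_mul (mul_le_mul_of_nonneg_left (abs_le_nk k j) (by positivity)) e2 (norm_nonneg _) (by have := nk_nonneg k; positivity)
  have hk := nk_nonneg k
  rw [← ofReal_norm]
  refine (ENNReal.ofReal_le_ofReal h2).trans ?_
  rw [ENNReal.ofReal_mul (by positivity), ENNReal.ofReal_sum_of_nonneg fun _ _ => by positivity]
  have h3 : ∑ j : Fin 3, ENNReal.ofReal (∑ i : Fin 3, ‖H459R3.NS.fr (fun y => z y j * z y i) k‖)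
      ≤ 9 * ∑' l, ‖H356R3.NS.fc z l‖ₑ * ‖H356R3.NS.fc z (k - l)‖ₑ := by
    have h4 : ∀ j : Fin 3, ENNReal.ofReal (∑ i : Fin 3, ‖H459R3.NS.fr (fun y => z y j * z y i) k‖)
        ≤ 3 * ∑' l, ‖H356R3.NS.fc z l‖ₑ * ‖H356R3.NS.fc z (k - l)‖ₑ := by
      intro j
      rw [ENNReal.ofReal_sum_of_nonneg fun _ _ => by positivity]
      calc ∑ i : Fin 3, ENNReal.ofReal ‖H459R3.NS.fr (fun y => z y j * z y i) k‖
          ≤ ∑ _i : Fin 3, ∑' l, ‖H356R3.NS.fc z l‖ₑ * ‖H356R3.NS.fc z (k - l)‖ₑ :=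
            Finset.sum_le_sum fun i _ => by rw [ofReal_norm]; exact fr_mul_le hz i j k
        _ = _ := by simp
    calc ∑ j : Fin 3, ENNReal.ofReal (∑ i : Fin 3, ‖H459R3.NS.fr (fun y => z y j * z y i) k‖)
        ≤ ∑ _j : Fin 3, 3 * ∑' l, ‖H356R3.NS.fc z l‖ₑ * ‖H356R3.NS.fc z (k - l)‖ₑ := Finset.sum_le_sum fun j _ => h4 j
      _ = _ := by
        rw [Finset.sum_const, Finset.card_univ, Fintype.card_fin, nsmul_eq_mul, ← mul_assoc]
        norm_num
  refine (mul_le_mul' le_rfl h3).trans ?_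
  rw [← mul_assoc]
  refine mul_le_mul' ?_ le_rfl
  rw [show (9 : ℝ≥0∞) = ENNReal.ofReal 9 by norm_num, ← ENNReal.ofReal_mul (by positivity)]
  refine ENNReal.ofReal_le_ofReal ?_
  have := Real.pi_lt_d2
  nlinarith

lemma fc_ct {g : ℝ → R3 → R3} (hg : ∀ i, Sm T fun t x => g t x i) (k : K) : ContinuousOn (fun t => H356R3.NS.fc (g t) k) (Ico 0 T) := by
  intro t ht
  have hb : (t + T) / 2 < T := by linarith [ht.2]
  rw [ContinuousWithinAt, Metric.tendsto_nhds]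
  intro w hw
  obtain ⟨r, hr, h⟩ := Wm_ct hg hb 0 (half_pos hw)
  have hd : 0 < min r ((T - t) / 2) := lt_min hr (by linarith [ht.2])
  filter_upwards [self_mem_nhdsWithin, mem_nhdsWithin_of_mem_nhds (Metric.ball_mem_nhds t hd)] with s hs hs'
  rw [Metric.mem_ball, Real.dist_eq] at hs'
  have h1 : |s - t| < r := hs'.trans_le (min_le_left _ _)
  have h2 : |s - t| < (T - t) / 2 := hs'.trans_le (min_le_right _ _)
  have hsb : s ∈ Icc 0 ((t + T) / 2) := ⟨hs.1, by have := (abs_lt.1 h2).2; linarith⟩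
  have htb : t ∈ Icc 0 ((t + T) / 2) := ⟨ht.1, by linarith [ht.2]⟩
  have h3 := h s hsb t htb h1.le
  have h4 : ‖H356R3.NS.fc (fun x => g s x - g t x) k‖ₑ ≤ ENNReal.ofReal (w / 2) := by
    refine le_trans ?_ h3
    unfold Wm
    refine le_trans (le_of_eq ?_) (ENNReal.le_tsum k)
    simp
  rw [← ofReal_norm, ENNReal.ofReal_le_ofReal_iff (by positivity),
    fc_sub (fun i => (hg i).sp s hs) (fun i => (hg i).sp t ht)] at h4
  rw [dist_eq_norm]
  linarith

/-- the projection as a continuous linear map -/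
noncomputable def prL (k : K) : C3 →L[ℝ] C3 := LinearMap.toContinuousLinearMap
  { toFun := pr k
    map_add' := fun a b => pr_add k a b
    map_smul' := fun r a => by
      have h := pr_csmul k (r : ℂ) a
      rw [Complex.coe_smul, Complex.coe_smul] at h
      exact h }

lemma prL_apply (k : K) (a : C3) : prL k a = pr k a := rfl

lemma prL_grad {k : K} (hk : k ≠ 0) (a : ℂ) : prL k (fun i => (k i : ℂ) * a) = 0 := by
  have hs : ((H356R3.NS.sq k : ℝ) : ℂ) ≠ 0 := by exact_mod_cast (H356R3.NS.sq_pos hk).ne'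
  have hd : dt k (fun i => (k i : ℂ) * a) = ((H356R3.NS.sq k : ℝ) : ℂ) * a := by
    unfold H356R3.NS.dt H356R3.NS.sq
    push_cast
    rw [Finset.sum_mul]
    exact Finset.sum_congr rfl fun j _ => by ring
  funext i
  show (k i : ℂ) * a - (k i : ℂ) * dt k (fun i => (k i : ℂ) * a) / ((H356R3.NS.sq k : ℝ) : ℂ) = 0
  rw [hd]
  field_simp
  ring

lemma prL_self {k : K} {a : C3} (h : dt k a = 0) : prL k a = a := by
  funext i
  show a i - (k i : ℂ) * dt k a / ((H356R3.NS.sq k : ℝ) : ℂ) = a i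
  rw [h]; simp

/-- smooth solutions for positive times -/
structure Sln (ν T : ℝ) (f u : ℝ → R3 → R3) (p : ℝ → R3 → ℝ) : Prop where
  hu : ∀ i, Sm T fun t x => u t x i
  huf : ∀ t ∈ Ico 0 T, Field (u t)
  hf : ∀ i, Sm T fun t x => f t x i
  hp : Sm T p
  mo : ∀ t ∈ Ioo 0 T, ∀ x i, deriv (fun s => u s x i) t = f t x i - Rs ν (u t) x i - pd i (p t) x

variable {f u : ℝ → R3 → R3} {p : ℝ → R3 → ℝ}

lemma Sln.der (h : Sln ν T f u p) {t : ℝ} (ht : t ∈ Ioo 0 T) {k : K} (hk : k ≠ 0) :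
    HasDerivAt (fun s => prL k (H356R3.NS.fc (u s) k)) (-(4 * Real.pi ^ 2 * ν * H356R3.NS.sq k) • prL k (H356R3.NS.fc (u t) k)
      + (prL k (H356R3.NS.fc (f t) k) - prL k (H356R3.NS.fc (adv (u t)) k))) t := by
  have ht' : t ∈ Ico 0 T := ⟨ht.1.le, ht.2⟩
  have hU := h.huf t ht'
  have sf : SPF (f t) := fun i => (h.hf i).sp t ht'
  have sg : SPF (fun x i => pd i (p t) x) := fun i => (h.hp.sp t ht').pd i
  have sR : SPF (Rs ν (u t)) := Rs_spf hU.sp
  have h1 : HasDerivAt (fun s => H356R3.NS.fc (u s) k) (H356R3.NS.fc (fun x i => dtw T (fun t x => u t x i) t x) k) t := by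
    refine hasDerivAt_pi.2 fun i => ?_
    have h2 := fr_hd (h.hu i) ht k
    simp only [fr_eq_fc] at h2
    have e : H459R3.NS.fr (dtw T (fun t x => u t x i) t) k = H356R3.NS.fc (fun x i => dtw T (fun t x => u t x i) t x) k i :=
      fr_eq_fc (fun x i => dtw T (fun t x => u t x i) t x) k i
    rw [← e]
    exact h2
  have e1 : (fun x i => dtw T (fun t x => u t x i) t x) = fun x => (f t x - Rs ν (u t) x) - (fun i => pd i (p t) x : R3) := by
    funext x i
    rw [dtw_dt ht]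
    exact h.mo t ht x i
  rw [e1, fc_sub (sf.sub sR) sg, fc_sub sf sR, Rs_eq, fc_add (adv_spf hU.sp) (Ls_spf hU.sp), fc_Ls hU.sp] at h1
  have hg : H356R3.NS.fc (fun x i => pd i (p t) x) k = fun i => (k i : ℂ) * (2 * Real.pi * Complex.I * H459R3.NS.fr (p t) k) := by
    funext i
    rw [← fr_eq_fc]
    have := congrFun (H459R3.NS.fr_pd (h.hp.sp t ht') i) k
    refine this.trans ?_
    unfold H459R3.NS.D
    ring
  rw [hg] at h1
  have h2 := (prL k).hasFDerivAt.comp_hasDerivAt t h1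
  refine h2.congr_deriv ?_
  rw [map_sub, map_sub, map_add, prL_grad hk, map_smul]
  rw [neg_smul]
  abel

end Pool.Agent.U162.SF
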