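import Pool.Agent.U162.SH.Duh2

/-!
The Duhamel inequality for the difference to the heat flow
-/

open MeasureTheory Set Filter Topology
open scoped ENNReal NNReal ContDiff

namespace Pool.Agent.U162.SF

open Pool.Agent.H356R3.NS Pool.Agent.U162.TS Pool.Agent.U162.GE Pool.Agent.U162.TS.EL Pool.Agent.U162.TS.VF Pool.Agent.U162.TS.Ph Pool.Agent.U162.PL Pool.Agent.U162.MU Pool.Agent.U162.LX

variable {T ν : ℝ} {f u : ℝ → R3 → R3} {p : ℝ → R3 → ℝ}

/-- the Duhamel inequality for the difference to the heat flow -/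
theorem Sln.duhd (h : Sln ν T f u p) {t : ℝ} (ht : t ∈ Ioo 0 T) {k : K} (hk : k ≠ 0) :
    ‖H356R3.NS.fc (u t) k - Real.exp (-(4 * Real.pi ^ 2 * ν * H356R3.NS.sq k * t)) • H356R3.NS.fc (u 0) k‖ₑ
      ≤ ∫⁻ τ in Ioo 0 t, ENNReal.ofReal (Real.exp (-(4 * Real.pi ^ 2 * ν * H356R3.NS.sq k * (t - τ)))) *
        (4 * ‖H356R3.NS.fc (f τ) k‖ₑ + ENNReal.ofReal (240 * nk k) * ∑' l, ‖H356R3.NS.fc (u τ) l‖ₑ * ‖H356R3.NS.fc (u τ) (k - l)‖ₑ) := by
  obtain ⟨q, hq⟩ : ∃ q : ℝ, q = 4 * Real.pi ^ 2 * ν * H356R3.NS.sq k := ⟨_, rfl⟩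
  rw [← hq]
  have ht0 : t ∈ Ico 0 T := ⟨ht.1.le, ht.2⟩
  set F : ℝ → C3 := fun s => prL k (H356R3.NS.fc (f s) k) - prL k (H356R3.NS.fc (adv (u s)) k) with hF
  set Z : ℝ → C3 := fun s => Real.exp (q * s) • prL k (H356R3.NS.fc (u s) k) with hZ
  have hsub : Icc 0 t ⊆ Ico 0 T := fun s hs => ⟨hs.1, hs.2.trans_lt ht.2⟩
  have hexp : Continuous fun s : ℝ => Real.exp (q * s) := by fun_prop
  have cZ : ContinuousOn Z (Icc 0 t) :=
    hexp.continuousOn.smul ((prL k).continuous.comp_continuousOn ((fc_ct h.hu k).mono hsub))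
  have cF : ContinuousOn F (Icc 0 t) :=
    ((prL k).continuous.comp_continuousOn ((fc_ct h.hf k).mono hsub)).sub
      ((prL k).continuous.comp_continuousOn ((fc_ct (g := fun s => adv (u s)) h.adv_sm k).mono hsub))
  have dZ : ∀ s ∈ Ioo 0 t, HasDerivAt Z (Real.exp (q * s) • F s) s := by
    intro s hs
    have h1 := h.der ⟨hs.1, hs.2.trans ht.2⟩ hk
    have h2 : HasDerivAt (fun s : ℝ => Real.exp (q * s)) (Real.exp (q * s) * q) s := by
      have := ((hasDerivAt_id s).const_mul q).exp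
      simpa using this
    have h3 := h2.smul h1
    refine h3.congr_deriv ?_
    rw [← hq, hF]
    simp only
    rw [smul_add, smul_smul, mul_neg, neg_smul]
    abel
  have hint : IntervalIntegrable (fun s => Real.exp (q * s) • F s) volume 0 t := by
    rw [intervalIntegrable_iff_integrableOn_Icc_of_le ht.1.le]
    exact (hexp.continuousOn.smul cF).integrableOn_compact isCompact_Icc
  have hftc := intervalIntegral.integral_eq_sub_of_hasDerivAt_of_le ht.1.le cZ dZ hint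
  have hZt : ‖Z t - Z 0‖ₑ ≤ ∫⁻ s in Ioo 0 t, ‖Real.exp (q * s) • F s‖ₑ := by
    rw [← hftc]
    rw [intervalIntegral.integral_of_le ht.1.le, setLIntegral_congr (Ioo_ae_eq_Ioc (a := (0 : ℝ)) (b := t))]
    exact enorm_integral_le_lintegral_enorm _
  have hU : ∀ s ∈ Ico 0 T, prL k (H356R3.NS.fc (u s) k) = H356R3.NS.fc (u s) k := fun s hs => prL_self ((h.huf s hs).dta.div k)
  have en : ∀ (r : ℝ) (a : C3), ‖Real.exp r • a‖ₑ = ENNReal.ofReal (Real.exp r) * ‖a‖ₑ := fun r a => by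
    rw [enorm_smul, ← ofReal_norm (Real.exp r), Real.norm_of_nonneg (Real.exp_pos _).le]
  have hXt : H356R3.NS.fc (u t) k - Real.exp (-(q * t)) • H356R3.NS.fc (u 0) k = Real.exp (-(q * t)) • (Z t - Z 0) := by
    rw [hZ]
    simp only
    rw [hU t ht0, hU 0 ⟨le_rfl, ht.1.trans ht.2⟩, mul_zero, Real.exp_zero, one_smul, smul_sub, smul_smul, ← Real.exp_add,
      neg_add_cancel, Real.exp_zero, one_smul]
  rw [hXt, en]
  refine (mul_le_mul' le_rfl hZt).trans ?_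
  rw [← lintegral_const_mul' _ _ ENNReal.ofReal_ne_top]
  refine setLIntegral_mono' measurableSet_Ioo fun s hs => ?_
  have hs' : s ∈ Ico 0 T := ⟨hs.1.le, hs.2.trans ht.2⟩
  rw [en, ← mul_assoc, ← ENNReal.ofReal_mul (Real.exp_pos _).le, ← Real.exp_add]
  have e2 : -(q * t) + q * s = -(q * (t - s)) := by ring
  rw [e2]
  refine mul_le_mul' le_rfl ?_
  have b4 : ∀ a : C3, ‖prL k a‖ₑ ≤ 4 * ‖a‖ₑ := fun a => by
    rw [← ofReal_norm, ← ofReal_norm, show (4 : ℝ≥0∞) = ENNReal.ofReal 4 by norm_num, ← ENNReal.ofReal_mul (by norm_num)]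
    exact ENNReal.ofReal_le_ofReal (leray_norm k a)
  rw [hF]
  simp only
  refine (enorm_sub_le).trans ((add_le_add (b4 _) (b4 _)).trans (add_le_add le_rfl ?_))
  have hfld := h.huf s hs'
  refine (mul_le_mul' le_rfl (fc_adv_le hfld.sp hfld.divFree k)).trans ?_
  rw [← mul_assoc]
  refine mul_le_mul' (le_of_eq ?_) le_rfl
  rw [show (4 : ℝ≥0∞) = ENNReal.ofReal 4 by norm_num, ← ENNReal.ofReal_mul (by norm_num)]
  congr 1; ring

end Pool.Agent.U162.SF
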