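import Pool.Agent.U162.SH.Adm
import Pool.Agent.U810.SH.KER
import Pool.Agent.U162.MU.SteerD

/-!
The integral `heatSq` is bounded by the square of the norm of `FB^{-1}_{1,2}`
-/

open MeasureTheory Set Filter Topology
open scoped ENNReal NNReal ContDiff

namespace Pool.Agent.U162.SF

open Pool.Agent.H356R3.NS Pool.Agent.U162.TS Pool.Agent.U162.GE Pool.Agent.U162.TS.EL Pool.Agent.U162.TS.VF Pool.Agent.U162.TS.Ph Pool.Agent.U162.PL Pool.Agent.U162.MU Pool.Agent.U162.LX Pool.Agent.U162.SH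

lemma lint_exp {a : ℝ} (ha : 0 < a) : ∫⁻ t in Ioi (0 : ℝ), ENNReal.ofReal (Real.exp (-(a * t))) = ENNReal.ofReal (1 / a) := by
  have h1 : IntegrableOn (fun t : ℝ => Real.exp (-a * t)) (Ioi 0) := integrableOn_exp_mul_Ioi (by linarith) 0
  have h2 := ofReal_integral_eq_lintegral_ofReal h1 (Eventually.of_forall fun t => (Real.exp_pos _).le)
  have h3 := integral_exp_mul_Ioi (a := -a) (by linarith) 0
  have e : ∀ t : ℝ, -(a * t) = -a * t := fun t => by ring
  simp only [e]
  rw [← h2, h3]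
  congr 1
  simp

lemma heatSq_le {ν : ℝ} (hν : 0 < ν) (d : Fq → Fin 3 → ℂ) :
    heatSq ν d ≤ ENNReal.ofReal (3 / (4 * Real.pi ^ 2 * ν)) * N2 fun k => ‖d k‖ₑ := by
  set c : ℝ := 4 * Real.pi ^ 2 * ν with hc
  have hc0 : 0 < c := by positivity
  set S : Fq → ℝ≥0∞ := fun k => if k = 0 then 0 else ‖d k‖ₑ with hS
  have hsq : ∀ k : Fq, (∑ j, (k j : ℝ) ^ 2) = (sqn k : ℝ) := fun k => by unfold sqn; push_cast; rfl
  set y : Fq → ℝ → ℝ≥0∞ := fun k t => ENNReal.ofReal (Real.exp (-(c * sqn k * t))) * S k with hy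
  have my : ∀ k, Measurable (y k) := fun k => by
    refine Measurable.mul_const ?_ _
    exact ENNReal.measurable_ofReal.comp (Real.measurable_exp.comp (measurable_const.mul measurable_id).neg)
  have e1 : heatSq ν d = ∑' k, ∑' l, ∫⁻ t in Ioi (0 : ℝ), y k t * y l t := by
    unfold heatSq
    have mm : ∀ k l, Measurable fun τ => y k τ * y l τ := fun k l => (my k).mul (my l)
    have e2 : ∀ t, (∑' k : Fq, if k = 0 then 0 else
        ENNReal.ofReal (Real.exp (-(4 * Real.pi ^ 2 * ν * (∑ j, (k j : ℝ) ^ 2) * t))) * ‖d k‖ₑ) ^ 2 = ∑' k, ∑' l, y k t * y l t := by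
      intro t
      rw [← prod_sum fun k => y k t]
      congr 1
      refine tsum_congr fun k => ?_
      rw [hy, hS]
      simp only
      by_cases hk : k = 0
      · rw [if_pos hk, if_pos hk, mul_zero]
      · rw [if_neg hk, if_neg hk, hsq]
    simp only [e2]
    rw [lintegral_tsum (f := fun k τ => ∑' l, y k τ * y l τ) fun k => (Measurable.ennreal_tsum (mm k)).aemeasurable]
    refine tsum_congr fun k => ?_
    rw [lintegral_tsum (f := fun l τ => y k τ * y l τ) fun l => (mm k l).aemeasurable]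
  have pos : ∀ k : Fq, k ≠ 0 → 0 < (sqn k : ℝ) := by
    intro k hk
    have : 0 < sqn k := by
      obtain ⟨i, hi⟩ := Function.ne_iff.1 hk
      have hi' : k i ≠ 0 := hi
      exact Finset.sum_pos' (fun i _ => sq_nonneg _) ⟨i, Finset.mem_univ i, by positivity⟩
    exact_mod_cast this
  have h1 : ∀ k l, ∫⁻ t in Ioi (0 : ℝ), y k t * y l t ≤ S k * S l * ENNReal.ofReal (1 / (c * ((sqn k : ℝ) + (sqn l : ℝ)))) := by
    intro k l
    by_cases hk : k = 0
    · have : S k = 0 := by rw [hS]; simp only [if_pos hk]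
      simp only [hy, this, mul_zero, zero_mul, lintegral_zero, le_refl]
    by_cases hl : l = 0
    · have : S l = 0 := by rw [hS]; simp only [if_pos hl]
      simp only [hy, this, mul_zero, zero_mul, lintegral_zero, le_refl]
    have hp : 0 < c * ((sqn k : ℝ) + (sqn l : ℝ)) := mul_pos hc0 (add_pos (pos k hk) (pos l hl))
    rw [← lint_exp hp, ← lintegral_const_mul _ (by
      exact ENNReal.measurable_ofReal.comp (Real.measurable_exp.comp (measurable_const.mul measurable_id).neg))]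
    refine lintegral_mono fun t => le_of_eq ?_
    rw [hy]
    simp only
    have : ENNReal.ofReal (Real.exp (-(c * ((sqn k : ℝ) + (sqn l : ℝ)) * t)))
        = ENNReal.ofReal (Real.exp (-(c * sqn k * t))) * ENNReal.ofReal (Real.exp (-(c * sqn l * t))) := by
      rw [← ENNReal.ofReal_mul (Real.exp_pos _).le, ← Real.exp_add]
      congr 2; ring
    rw [this]
    ring
  rw [e1]
  refine (ENNReal.tsum_le_tsum fun k => ENNReal.tsum_le_tsum fun l => h1 k l).trans ?_
  refine (Pool.Agent.U810.SH.KER.t_KER c hc0 S (by rw [hS]; simp)).trans ?_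
  refine mul_le_mul' le_rfl (N2_mono fun k hk => ?_)
  rw [hS]
  simp only [if_neg hk]
  exact le_rfl

/-- a ball of `FB^{-1}_{1,2}` is contained in a ball of `heatSq` -/
lemma heatSq_of_crit {ν : ℝ} (hν : 0 < ν) {δ : ℝ} (hδ : 0 < δ) : ∃ δ' : ℝ, 0 < δ' ∧ ∀ d : Fq → Fin 3 → ℂ,
    critNorm 2 d ≤ ENNReal.ofReal δ' → heatSq ν d ≤ ENNReal.ofReal δ := by
  have hc0 : 0 < 4 * Real.pi ^ 2 * ν := by positivity
  refine ⟨Real.sqrt (δ * (4 * Real.pi ^ 2 * ν) / 3), Real.sqrt_pos.2 (by positivity), fun d h => ?_⟩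
  refine (heatSq_le hν d).trans ((mul_le_mul' le_rfl (N2_le_of_crit (Real.sqrt_nonneg _) h)).trans (le_of_eq ?_))
  rw [Real.sq_sqrt (by positivity), ← ENNReal.ofReal_mul (by positivity)]
  congr 1
  field_simp

end Pool.Agent.U162.SF
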