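import Pool.Agent.U162.SH.Cost
import Pool.Agent.U162.SH.AB3
import Pool.Agent.U162.SH.Duhd

/-!
The initial growth in the Lei-Lin norm of solutions which start near given data in `FB^{-1}_{1,2}`
-/

open MeasureTheory Set Filter Topology
open scoped ENNReal NNReal ContDiff

namespace Pool.Agent.U162.SF

open Pool.Agent.H356R3.NS Pool.Agent.U162.TS Pool.Agent.U162.GE Pool.Agent.U162.TS.EL Pool.Agent.U162.TS.VF Pool.Agent.U162.TS.Ph Pool.Agent.U162.PL Pool.Agent.U162.MU Pool.Agent.U162.LX Pool.Agent.U162.SH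

variable {T ν : ℝ} {f u : ℝ → R3 → R3} {p : ℝ → R3 → ℝ}

lemma fc_z0 : H356R3.NS.fc (0 : R3 → R3) = 0 := by
  funext k i
  unfold H356R3.NS.fc
  simp

/-- the initial growth -/
theorem ll_near (hν : 0 < ν) {u₀ : R3 → R3} (h0 : Field u₀) {η : ℝ} (hη : 0 < η) :
    ∃ T : ℝ, 0 < T ∧ ∀ {b : R3 → R3} {u : ℝ → R3 → R3} {p : ℝ → R3 → ℝ}, Field b → AdmissiblePeriodic ν b u p →
      ∀ {e : ℝ}, 0 ≤ e → e ≤ ν / 600 → critNorm 2 (fun k i => H356R3.NS.fc b k i - H356R3.NS.fc u₀ k i) ≤ ENNReal.ofReal e →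
      ∀ t ∈ Ioo 0 T, leiLin (fun k => H356R3.NS.fc (u t) k - Real.exp (-(4 * Real.pi ^ 2 * ν * H356R3.NS.sq k * t)) • H356R3.NS.fc b k)
        ≤ ENNReal.ofReal (150 * e ^ 2 / ν + η) := by
  have hπ : 39 < 4 * Real.pi ^ 2 := by
    have := Real.pi_gt_d2
    nlinarith
  set c : ℝ := 4 * Real.pi ^ 2 * ν with hc
  have hc0 : 0 < c := by positivity
  have hcν : 39 * ν ≤ c := by rw [hc]; nlinarith
  set Y : ℝ := min (η / 960) (c / 44236800) with hY
  have hY0 : 0 < Y := lt_min (by positivity) (by positivity)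
  have hU0 : (∑' k, ‖H356R3.NS.fc u₀ k‖ₑ) ≠ ⊤ := by
    have h1 : Summable fun k => ‖H356R3.NS.fc u₀ k‖ := h0.dta.sum
    have h2 : (∑' k, ‖H356R3.NS.fc u₀ k‖ₑ) = ENNReal.ofReal (∑' k, ‖H356R3.NS.fc u₀ k‖) := by
      rw [ENNReal.ofReal_tsum_of_nonneg (fun _ => norm_nonneg _) h1]
      exact tsum_congr fun k => (ofReal_norm _).symm
    rw [h2]; exact ENNReal.ofReal_ne_top
  obtain ⟨M, hM⟩ : ∃ M : ℝ, M = (∑' k, ‖H356R3.NS.fc u₀ k‖ₑ).toReal := ⟨_, rfl⟩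
  have hM0 : 0 ≤ M := by rw [hM]; exact ENNReal.toReal_nonneg
  have hMe : (∑' k, ‖H356R3.NS.fc u₀ k‖ₑ) = ENNReal.ofReal M := by rw [hM, ENNReal.ofReal_toReal hU0]
  obtain ⟨T, hT⟩ : ∃ T : ℝ, T = Y / (M ^ 2 + 1) := ⟨_, rfl⟩
  have hT0 : 0 < T := by rw [hT]; positivity
  refine ⟨T, hT0, fun {b u p} hb h {e} he hs hi t ht => ?_⟩
  have hS : Sln ν (T + 1) 0 u p := adm_sln h hb _
  have hbT : T < T + 1 := by linarith
  set cl : ℝ → ℝ := fun s => max 0 (min s T) with hcl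
  have ccl : Continuous cl := continuous_const.max (continuous_id.min continuous_const)
  have mcl : ∀ s, cl s ∈ Ico 0 (T + 1) := fun s => ⟨le_max_left _ _, (max_lt (by linarith) ((min_le_right _ _).trans_lt hbT))⟩
  have ecl : ∀ s ∈ Icc 0 T, cl s = s := fun s hs => by
    rw [hcl]; simp only; rw [min_eq_left hs.2, max_eq_right hs.1]
  obtain ⟨B, hB0, hB⟩ := Wm_bd hS.hu hbT 0
  have mcl2 : ∀ s, cl s ∈ Icc 0 T := fun s => ⟨le_max_left _ _, max_le hT0.le (min_le_right _ _)⟩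
  have hx : ∀ k : K, Measurable fun s => ‖H356R3.NS.fc (u (cl s)) k‖ₑ := fun k =>
    ((fc_ct hS.hu k).comp_continuous ccl mcl).enorm.measurable
  have he2 : e ^ 2 ≤ (ν / 600) ^ 2 := pow_le_pow_left₀ he hs 2
  have hsm : 4 * (2 * Y + 12 * e ^ 2 / c) * (48 * 240 ^ 2 / c) < 1 := by
    have a1 : Y ≤ c / 44236800 := min_le_right _ _
    have a2 : 12 * e ^ 2 / c ≤ 12 * (ν / 600) ^ 2 / c := by gcongr
    have a3 : ν ≤ c / 39 := by rw [le_div_iff₀ (by norm_num)]; linarith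
    have a4 : 12 * (ν / 600) ^ 2 / c ≤ 12 * (c / 39 / 600) ^ 2 / c := by gcongr
    have a5 : 4 * (2 * Y + 12 * e ^ 2 / c) * (48 * 240 ^ 2 / c) ≤ 4 * (2 * (c / 44236800) + 12 * (c / 39 / 600) ^ 2 / c) * (48 * 240 ^ 2 / c) := by
      have a7 : 2 * Y + 12 * e ^ 2 / c ≤ 2 * (c / 44236800) + 12 * (c / 39 / 600) ^ 2 / c := by linarith [a2.trans a4]
      exact mul_le_mul_of_nonneg_right (mul_le_mul_of_nonneg_left a7 (by norm_num)) (by positivity)
    refine a5.trans_lt ?_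
    have a6 : 4 * (2 * (c / 44236800) + 12 * (c / 39 / 600) ^ 2 / c) * (48 * 240 ^ 2 / c) = 4 * (2 / 44236800 + 12 / (39 * 600) ^ 2) * (48 * 240 ^ 2) := by
      field_simp
    rw [a6]
    norm_num
  have zk : ∀ (τ : ℝ) (k : K), ‖H356R3.NS.fc ((0 : ℝ → R3 → R3) τ) k‖ₑ = 0 := by
    intro τ k
    show ‖H356R3.NS.fc (0 : R3 → R3) k‖ₑ = 0
    rw [fc_z0]; simp
  have key := apriori3 Pool.Agent.U810.SH.KER.t_KER Pool.Agent.U162.SH.t_TON Pool.Agent.U402.SH.t_BOOT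
    (c := c) (C := 240) (T := T) (B := B) (e := e) (Y := Y) hc0 (by norm_num) hY0.le hsm
    (fun k s => ‖H356R3.NS.fc (u (cl s)) k‖ₑ) (fun k => ‖H356R3.NS.fc u₀ k‖ₑ) (fun k => ‖(fun i => H356R3.NS.fc b k i - H356R3.NS.fc u₀ k i : C3)‖ₑ) hx
    (fun s _ => (Wn_le_Wm 0 _).trans (hB _ (mcl2 s))) (fun s _ => by rw [(hS.huf _ (mcl s)).dta.mean]; simp)
    (by
      rw [hMe, ← ENNReal.ofReal_pow hM0, ← ENNReal.ofReal_mul hT0.le]
      refine ENNReal.ofReal_le_ofReal ?_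
      rw [hT, div_mul_eq_mul_div, div_le_iff₀ (by positivity)]
      nlinarith [hY0.le, sq_nonneg M])
    (fun k hk s hs => by
      have hs' : s ∈ Ioo 0 (T + 1) := ⟨hs.1, hs.2.trans hbT⟩
      have h1 := hS.duh hs' hk
      rw [sqn_eq, ecl s ⟨hs.1.le, hs.2.le⟩]
      refine h1.trans ?_
      rw [h.initial, ← add_assoc]
      refine add_le_add ?_ (le_of_eq ?_)
      · have h2 : ‖H356R3.NS.fc b k‖ₑ ≤ ‖H356R3.NS.fc u₀ k‖ₑ + ‖(fun i => H356R3.NS.fc b k i - H356R3.NS.fc u₀ k i : C3)‖ₑ := by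
          have e1 : H356R3.NS.fc b k = H356R3.NS.fc u₀ k + (fun i => H356R3.NS.fc b k i - H356R3.NS.fc u₀ k i : C3) := by
            funext i; simp
          calc ‖H356R3.NS.fc b k‖ₑ = ‖H356R3.NS.fc u₀ k + (fun i => H356R3.NS.fc b k i - H356R3.NS.fc u₀ k i : C3)‖ₑ := by rw [← e1]
            _ ≤ _ := enorm_add_le _ _
        refine (mul_le_mul' le_rfl h2).trans ?_
        rw [mul_add]
        refine add_le_add (mul_le_of_le_one_left (by positivity) ?_) le_rfl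
        rw [← ENNReal.ofReal_one]
        refine ENNReal.ofReal_le_ofReal ?_
        rw [Real.exp_le_one_iff]
        have a1 : 0 ≤ 4 * Real.pi ^ 2 * ν * H356R3.NS.sq k := mul_nonneg (by positivity) (Finset.sum_nonneg fun _ _ => sq_nonneg _)
        have := mul_nonneg a1 hs.1.le
        linarith
      · refine setLIntegral_congr_fun measurableSet_Ioo fun τ hτ => ?_
        rw [zk, mul_zero, zero_add, ecl τ ⟨hτ.1.le, (hτ.2.trans hs.2).le⟩]
        rfl)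
    (N2_le_of_crit he hi) (t := t) ht
  have hA : ∫⁻ τ in Ioo 0 t, (∑' k, ‖H356R3.NS.fc (u τ) k‖ₑ) ^ 2 ≤ ENNReal.ofReal (4 * Y + 24 * e ^ 2 / c) := by
    refine le_trans (le_of_eq ?_) key
    refine setLIntegral_congr_fun measurableSet_Ioo fun τ hτ => ?_
    rw [ecl τ ⟨hτ.1.le, (hτ.2.trans ht.2).le⟩]
  have ht' : t ∈ Ioo 0 (T + 1) := ⟨ht.1, ht.2.trans hbT⟩
  set x : K → ℝ → ℝ≥0∞ := fun k τ => ‖H356R3.NS.fc (u τ) k‖ₑ with hxd
  have hxm : ∀ k, AEMeasurable (x k) (volume.restrict (Ioo 0 t)) := fun k =>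
    (((fc_ct hS.hu k).mono fun s hs => ⟨hs.1.le, hs.2.trans ht'.2⟩).enorm.aemeasurable measurableSet_Ioo)
  have hsum : leiLin (fun k => H356R3.NS.fc (u t) k - Real.exp (-(4 * Real.pi ^ 2 * ν * H356R3.NS.sq k * t)) • H356R3.NS.fc b k)
      ≤ ∑' k : K, 240 * ∫⁻ τ in Ioo 0 t, ∑' l, x l τ * x (k - l) τ := by
    unfold leiLin
    refine ENNReal.tsum_le_tsum fun k => ?_
    by_cases h2 : k = 0
    · rw [if_pos h2]; exact bot_le
    rw [if_neg h2, nk_sqrt]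
    have hn : 0 < nk k := lt_of_lt_of_le one_pos (one_le_nk h2)
    have h3 := hS.duhd ht' h2
    rw [h.initial] at h3
    refine ENNReal.div_le_of_le_mul (h3.trans ?_)
    have e3 : 240 * (∫⁻ τ in Ioo 0 t, ∑' l, x l τ * x (k - l) τ) * ENNReal.ofReal (nk k)
        = ∫⁻ τ in Ioo 0 t, ENNReal.ofReal (240 * nk k) * ∑' l, x l τ * x (k - l) τ := by
      rw [lintegral_const_mul' _ _ ENNReal.ofReal_ne_top, ENNReal.ofReal_mul (by norm_num), show ENNReal.ofReal 240 = 240 by norm_num]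
      ring
    rw [e3]
    refine setLIntegral_mono' measurableSet_Ioo fun τ hτ => ?_
    rw [zk, mul_zero, zero_add]
    refine mul_le_of_le_one_left (by positivity) ?_
    rw [← ENNReal.ofReal_one]
    refine ENNReal.ofReal_le_ofReal ?_
    rw [Real.exp_le_one_iff]
    have h1 : 0 ≤ 4 * Real.pi ^ 2 * ν * H356R3.NS.sq k := mul_nonneg (by positivity) (Finset.sum_nonneg fun _ _ => sq_nonneg _)
    have h2 : 0 ≤ t - τ := by linarith [hτ.2]
    have := mul_nonneg h1 h2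
    linarith
  refine hsum.trans ?_
  rw [ENNReal.tsum_mul_left]
  have e2 : ∑' k, ∫⁻ τ in Ioo 0 t, ∑' l, x l τ * x (k - l) τ = ∫⁻ τ in Ioo 0 t, (∑' k, x k τ) ^ 2 := by
    have mm : ∀ k : K, AEMeasurable (fun τ => ∑' l, x l τ * x (k - l) τ) (volume.restrict (Ioo 0 t)) := fun k =>
      AEMeasurable.tsum fun l => (hxm l).mul (hxm (k - l))
    rw [← lintegral_tsum (f := fun (k : K) τ => ∑' l, x l τ * x (k - l) τ) mm]
    refine lintegral_congr fun τ => ?_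
    exact conv_sum fun k => x k τ
  rw [e2]
  refine (mul_le_mul' le_rfl hA).trans ?_
  rw [show (240 : ℝ≥0∞) = ENNReal.ofReal 240 by norm_num, ← ENNReal.ofReal_mul (by norm_num)]
  refine ENNReal.ofReal_le_ofReal ?_
  have b1 : Y ≤ η / 960 := min_le_left _ _
  have b2 : 24 * e ^ 2 / c ≤ 24 * e ^ 2 / (39 * ν) := by gcongr
  have b3 : 240 * (24 * e ^ 2 / (39 * ν)) ≤ 150 * e ^ 2 / ν := by
    rw [← mul_div_assoc, div_le_div_iff₀ (by positivity) hν]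
    have : 0 ≤ e ^ 2 * ν := by positivity
    nlinarith
  nlinarith

end Pool.Agent.U162.SF
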