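import Pool.Agent.U162.SH.HtN

/-!
Stability of global solutions in the norm of `FB^{-1}_{1,2}`
-/

open MeasureTheory Set Filter Topology
open scoped ENNReal NNReal ContDiff

namespace Pool.Agent.U162.SF

open Pool.Agent.H356R3.NS Pool.Agent.U162.TS Pool.Agent.U162.GE Pool.Agent.U162.TS.EL Pool.Agent.U162.TS.VF Pool.Agent.U162.TS.Ph Pool.Agent.U162.PL Pool.Agent.U162.MU Pool.Agent.U162.LX Pool.Agent.U162.SH

theorem stab {ν : ℝ} (hν : 0 < ν) {g : R3 → R3} (hg : Field g) {v : ℝ → R3 → R3}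
    {p : ℝ → R3 → ℝ} (hv : AdmissiblePeriodic ν g v p) {ε : ℝ} (hε : 0 < ε) :
    ∃ δ : ℝ, 0 < δ ∧ ∀ u₁ : R3 → R3, Field u₁ →
      critNorm 2 (fun k i => H356R3.NS.fc u₁ k i - H356R3.NS.fc g k i) ≤ ENNReal.ofReal δ →
      ∃ u q, AdmissiblePeriodic ν u₁ u q ∧ (∀ t, ε ≤ t → ∀ x i, |u t x i - v t x i| ≤ ε) ∧
        ∫⁻ t in Ioi (0 : ℝ), (⨆ x, ‖u t x - v t x‖ₑ) ^ 2 ≤ ENNReal.ofReal ε := by
  obtain ⟨δ, hδ, h⟩ := multi_given hν (J := 0) (V := fun j => j.elim0) (W := fun j => j.elim0) (Q := fun j => j.elim0)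
    (fun j => j.elim0) (fun j => j.elim0) hg hv hε
  obtain ⟨δ', hδ', h6⟩ := heatSq_of_crit hν hδ
  have h1 := h hg fun l i => by simp
  have h2 : ∀ u₀ : R3 → R3, Field u₀ →
        heatSq ν (fun k i => H356R3.NS.fc u₀ k i - mixs g (fun j : Fin 0 => j.elim0) Fin.elim0 k i) ≤ ENNReal.ofReal δ →
        ∃ u q, AdmissiblePeriodic ν u₀ u q ∧ (∀ t, ε ≤ t → ∀ x i, |u t x i - v t x i| ≤ ε) ∧
          CloseAfter ε u v ∧ CloseMulti ε Fin.elim0 u v (fun j : Fin 0 => j.elim0) := h1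
  refine ⟨δ', hδ', fun u₁ hu₁ hc => ?_⟩
  obtain ⟨u, q, h3, h4, _, h5⟩ := h2 u₁ hu₁ (by
    refine le_trans (le_of_eq ?_) (h6 _ hc)
    congr 1
    funext k i
    unfold mixs
    simp)
  refine ⟨u, q, h3, h4, ?_⟩
  unfold CloseMulti at h5
  simpa using h5

end Pool.Agent.U162.SF
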