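import Mathlib

/-!
Statements for the rigidity of the forced Navier-Stokes equations at the endpoint `s = 2`
-/

open MeasureTheory Set Filter Topology
open scoped ENNReal NNReal

namespace Pool.Agent.U162.SH

/-- wave vectors -/
abbrev Kk := Fin 3 → ℤ

/-- `|k|²` -/
def sqn (k : Kk) : ℤ := ∑ i, k i ^ 2

/-- the sum over a dyadic shell -/
noncomputable def shl (b : Kk → ℝ≥0∞) (j : ℕ) : ℝ≥0∞ :=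
  ∑' k : Kk, if (4 : ℤ) ^ j ≤ sqn k ∧ sqn k < 4 ^ (j + 1) then b k else 0

/-- the square of the norm `FB^{-1}_{1,2}` -/
noncomputable def N2 (b : Kk → ℝ≥0∞) : ℝ≥0∞ := ∑' j : ℕ, (shl b j / 2 ^ j) ^ 2

/-- the kernel bound -/
def S_KER : Prop := ∀ (c : ℝ), 0 < c → ∀ S : Kk → ℝ≥0∞, S 0 = 0 →
  ∑' k : Kk, ∑' l : Kk, S k * S l * ENNReal.ofReal (1 / (c * ((sqn k : ℝ) + (sqn l : ℝ)))) ≤ ENNReal.ofReal (3 / c) * N2 S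

/-- Tonelli -/
def S_TON : Prop := ∀ (α β T : ℝ), 0 < α → 0 < β → ∀ (x y ρ σ : ℝ → ℝ≥0∞) (x₀ y₀ : ℝ≥0∞), Measurable ρ → Measurable σ →
  (∀ s ∈ Ioo 0 T, x s ≤ ENNReal.ofReal (Real.exp (-(α * s))) * x₀ +
    ∫⁻ τ in Ioo 0 s, ENNReal.ofReal (Real.exp (-(α * (s - τ)))) * ρ τ) →
  (∀ s ∈ Ioo 0 T, y s ≤ ENNReal.ofReal (Real.exp (-(β * s))) * y₀ +
    ∫⁻ τ in Ioo 0 s, ENNReal.ofReal (Real.exp (-(β * (s - τ)))) * σ τ) →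
  ∫⁻ s in Ioo 0 T, x s * y s ≤
    (x₀ + ∫⁻ τ in Ioo 0 T, ρ τ) * (y₀ + ∫⁻ τ in Ioo 0 T, σ τ) * ENNReal.ofReal (1 / (α + β))

/-- Minkowski -/
def S_MIN : Prop := ∀ (T : ℝ) (φ : Kk → ℝ → ℝ≥0∞), (∀ k, Measurable (φ k)) →
  N2 (fun k => ∫⁻ τ in Ioo 0 T, φ k τ) ≤ (∫⁻ τ in Ioo 0 T, (N2 fun k => φ k τ) ^ (1 / 2 : ℝ)) ^ 2

/-- continuity argument -/
def S_BOOT : Prop := ∀ (T a γ : ℝ) (A : ℝ → ℝ), ContinuousOn A (Icc 0 T) → A 0 = 0 → 0 ≤ a → 0 ≤ γ → 4 * a * γ < 1 →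
  (∀ t ∈ Icc 0 T, A t ≤ a + γ * A t ^ 2) → ∀ t ∈ Icc 0 T, A t ≤ 2 * a

end Pool.Agent.U162.SH
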